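import Mathlib

/-!
Graded Betti numbers over the polynomial ring, computed by the Koszul complex.

For `R = S / I`, `S = K[x_1, ..., x_n]`, the space `Tor_i^S(R, K)_j` is the homology at
`Λ^i S_1 ⊗ R_{j-i}` of the Koszul complex
`Λ^{i+1} S_1 ⊗ R_{j-i-1} → Λ^i S_1 ⊗ R_{j-i} → Λ^{i-1} S_1 ⊗ R_{j-i+1}`.
-/

set_option autoImplicit false

noncomputable section

namespace Pool.Agent.KS6_52.KB

open MvPolynomial

section Defs

variable {K : Type} [Field K] {n : ℕ}

/-- The degree `d` part `R_d` of `R = S / I`. -/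
def part (I : Ideal (MvPolynomial (Fin n) K)) (d : ℕ) :
    Submodule K (MvPolynomial (Fin n) K ⧸ I) :=
  Submodule.map (Ideal.Quotient.mkₐ K I).toLinearMap (homogeneousSubmodule (Fin n) K d)

/-- `Λ^i S_1 ⊗ R_d`: the element `∑_{|T| = i} e_T ⊗ ω_T` is the function `T ↦ ω_T`, extended by
zero to the sets `T` with `|T| ≠ i`. -/
def chain (I : Ideal (MvPolynomial (Fin n) K)) (i d : ℕ) :
    Submodule K (Finset (Fin n) → MvPolynomial (Fin n) K ⧸ I) where
  carrier := {ω | ∀ T, ω T ∈ part I d ∧ (T.card ≠ i → ω T = 0)}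
  add_mem' := by
    intro x y hx hy T
    refine ⟨add_mem (hx T).1 (hy T).1, fun h => ?_⟩
    rw [Pi.add_apply, (hx T).2 h, (hy T).2 h, add_zero]
  zero_mem' := fun _ => ⟨zero_mem _, fun _ => rfl⟩
  smul_mem' := by
    intro c x hx T
    refine ⟨Submodule.smul_mem _ _ (hx T).1, fun h => ?_⟩
    rw [Pi.smul_apply, (hx T).2 h, smul_zero]

/-- The Koszul differential:
`e_{t_1} ∧ ... ∧ e_{t_i} ⊗ r ↦ ∑_j (-1)^{j-1} e_{t_1} ∧ ..(omit e_{t_j}).. ∧ e_{t_i} ⊗ x_{t_j} r`
for `t_1 < ... < t_i`. The coefficient of `e_T` in the differential of `ω` is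
`∑_{k ∉ T} ± x_k ω_{T ∪ k}`, the sign being `(-1)^{number of elements of T below k}`. -/
def kdiff (I : Ideal (MvPolynomial (Fin n) K)) :
    (Finset (Fin n) → MvPolynomial (Fin n) K ⧸ I) →ₗ[K]
      (Finset (Fin n) → MvPolynomial (Fin n) K ⧸ I) where
  toFun ω T := ∑ k ∈ Tᶜ, (-1) ^ (T.filter (· < k)).card *
    (Ideal.Quotient.mk I (X k) * ω (insert k T))
  map_add' x y := by
    funext T
    simp only [Pi.add_apply, mul_add, Finset.sum_add_distrib]
  map_smul' c x := by
    funext T
    simp only [Pi.smul_apply, mul_smul_comm, Finset.smul_sum, RingHom.id_apply]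

/-- The cycles in `Λ^i S_1 ⊗ R_d`. -/
def cycles (I : Ideal (MvPolynomial (Fin n) K)) (i d : ℕ) :
    Submodule K (Finset (Fin n) → MvPolynomial (Fin n) K ⧸ I) :=
  chain I i d ⊓ LinearMap.ker (kdiff I)

/-- The boundaries in `Λ^i S_1 ⊗ R_d`: the image of `Λ^{i+1} S_1 ⊗ R_{d-1}`. -/
def bdries (I : Ideal (MvPolynomial (Fin n) K)) (i : ℕ) :
    ℕ → Submodule K (Finset (Fin n) → MvPolynomial (Fin n) K ⧸ I)
  | 0 => ⊥
  | d + 1 => (chain I (i + 1) d).map (kdiff I)

/-- The graded Betti number `β_{i,j}^S(S / I) = dim_K Tor_i^S(S / I, K)_j`, as the dimension of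
the homology (cycles modulo boundaries) of the Koszul complex at `Λ^i S_1 ⊗ (S / I)_{j - i}`. -/
def betti (I : Ideal (MvPolynomial (Fin n) K)) (i j : ℕ) : ℕ :=
  if i ≤ j then
    Module.finrank K (cycles I i (j - i) ⧸
      (bdries I i (j - i)).comap (cycles I i (j - i)).subtype)
  else 0

lemma mem_chain {I : Ideal (MvPolynomial (Fin n) K)} {i d : ℕ}
    {ω : Finset (Fin n) → MvPolynomial (Fin n) K ⧸ I} :
    ω ∈ chain I i d ↔ ∀ T, ω T ∈ part I d ∧ (T.card ≠ i → ω T = 0) := Iff.rfl

lemma kdiff_apply {I : Ideal (MvPolynomial (Fin n) K)}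
    (ω : Finset (Fin n) → MvPolynomial (Fin n) K ⧸ I) (T : Finset (Fin n)) :
    kdiff I ω T = ∑ k ∈ Tᶜ, (-1) ^ (T.filter (· < k)).card *
      (Ideal.Quotient.mk I (X k) * ω (insert k T)) := rfl

/-- The sign rule of the Koszul complex. -/
lemma sign_rule {K : Type} [CommRing K] (U : Finset (Fin n)) {p q : Fin n} (hp : p ∉ U)
    (hq : q ∉ U) (hpq : p ≠ q) :
    (-1 : K) ^ (U.filter (· < p)).card * (-1) ^ ((insert p U).filter (· < q)).card =
      -((-1) ^ (U.filter (· < q)).card * (-1) ^ ((insert q U).filter (· < p)).card) := by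
  rw [Finset.filter_insert, Finset.filter_insert]
  have h1 : p ∉ U.filter (· < q) := fun h => hp (Finset.mem_filter.1 h).1
  have h2 : q ∉ U.filter (· < p) := fun h => hq (Finset.mem_filter.1 h).1
  rcases lt_or_gt_of_ne hpq with h | h
  · rw [if_pos h, if_neg (not_lt.2 h.le), Finset.card_insert_of_notMem h1]
    ring
  · rw [if_neg (not_lt.2 h.le), if_pos h, Finset.card_insert_of_notMem h2]
    ring

/-- The composition of two Koszul differentials is zero. -/
theorem kdiff_kdiff (I : Ideal (MvPolynomial (Fin n) K))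
    (ω : Finset (Fin n) → MvPolynomial (Fin n) K ⧸ I) : kdiff I (kdiff I ω) = 0 := by
  funext T
  rw [kdiff_apply]
  simp only [kdiff_apply, Finset.mul_sum]
  rw [Finset.sum_sigma']
  refine Finset.sum_involution (fun p _ => ⟨p.2, p.1⟩) ?_ ?_ ?_ ?_
  · rintro ⟨k, l⟩ h
    simp only [Finset.mem_sigma, Finset.mem_compl, Finset.mem_insert, not_or] at h
    have h1 := sign_rule (K := MvPolynomial (Fin n) K ⧸ I) T h.1 h.2.2 (fun e => h.2.1 e.symm)
    simp only
    rw [Finset.insert_comm k l T]
    linear_combination (Ideal.Quotient.mk I (X k) * Ideal.Quotient.mk I (X l) *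
      ω (insert l (insert k T))) * h1
  · rintro ⟨k, l⟩ h _ heq
    simp only [Finset.mem_sigma, Finset.mem_compl, Finset.mem_insert, not_or] at h
    simp only [Sigma.mk.injEq, heq_eq_eq] at heq
    exact h.2.1 heq.1
  · rintro ⟨k, l⟩ h
    simp only [Finset.mem_sigma, Finset.mem_compl, Finset.mem_insert, not_or] at h ⊢
    exact ⟨h.2.2, fun e => h.2.1 e.symm, h.1⟩
  · rintro ⟨k, l⟩ h
    rfl

/-- The boundaries are cycles. -/
theorem bdries_le_cycles (I : Ideal (MvPolynomial (Fin n) K)) (i d : ℕ) :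
    bdries I i d ≤ cycles I i d := by
  cases d with
  | zero => exact bot_le
  | succ d =>
    rintro _ ⟨ω, hω, rfl⟩
    refine ⟨fun T => ⟨?_, fun hT => ?_⟩, kdiff_kdiff I ω⟩
    · rw [kdiff_apply]
      refine Submodule.sum_mem _ fun k _ => ?_
      have h1 : Ideal.Quotient.mk I (X k) * ω (insert k T) ∈ part I (d + 1) := by
        obtain ⟨p, hp, hpe⟩ := (hω (insert k T)).1
        rw [← hpe]
        refine ⟨X k * p, ?_, ?_⟩
        · have := (isHomogeneous_X K k).mul (show p.IsHomogeneous d from hp)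
          rw [add_comm] at this
          exact this
        · exact map_mul (Ideal.Quotient.mk I) _ _
      have h2 : ∀ (r : MvPolynomial (Fin n) K ⧸ I) (e : ℕ), r ∈ part I (d + 1) →
          (-1) ^ e * r ∈ part I (d + 1) := by
        intro r e hr
        rcases neg_one_pow_eq_or (MvPolynomial (Fin n) K ⧸ I) e with h | h
        · rw [h, one_mul]
          exact hr
        · rw [h, neg_one_mul]
          exact Submodule.neg_mem _ hr
      exact h2 _ _ h1
    · rw [kdiff_apply]
      refine Finset.sum_eq_zero fun k hk => ?_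
      rw [(hω (insert k T)).2, mul_zero, mul_zero]
      rw [Finset.card_insert_of_notMem (Finset.mem_compl.1 hk)]
      omega

end Defs

section One

variable {K : Type} [Field K] {n : ℕ}

/-- An element of degree one is the class of a linear form. -/
lemma exists_lin {I : Ideal (MvPolynomial (Fin n) K)} {r : MvPolynomial (Fin n) K ⧸ I}
    (hr : r ∈ part I 1) : ∃ c : Fin n → K,
      r = Ideal.Quotient.mk I (∑ k, C (c k) * X k) := by
  obtain ⟨p, hp, rfl⟩ := hr
  rw [SetLike.mem_coe, homogeneousSubmodule_one_eq_span_X] at hp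
  obtain ⟨c, hc⟩ := (Submodule.mem_span_range_iff_exists_fun K).1 hp
  refine ⟨c, ?_⟩
  rw [← hc]
  change Ideal.Quotient.mk I _ = _
  congr 1
  exact Finset.sum_congr rfl fun k _ => by rw [smul_eq_C_mul]

instance finite_part (I : Ideal (MvPolynomial (Fin n) K)) : Module.Finite K (part I 1) := by
  rw [part, homogeneousSubmodule_one_eq_span_X, Submodule.map_span]
  refine Module.Finite.span_of_finite K ?_
  exact (Set.finite_range _).image _

instance finite_chain (I : Ideal (MvPolynomial (Fin n) K)) (i : ℕ) :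
    Module.Finite K (chain I i 1) := by
  let f : chain I i 1 →ₗ[K] (Finset (Fin n) → part I 1) :=
    { toFun := fun ω T => ⟨ω.1 T, (ω.2 T).1⟩
      map_add' := fun x y => rfl
      map_smul' := fun c x => rfl }
  refine Module.Finite.of_injective f ?_
  intro x y hxy
  apply Subtype.ext
  funext T
  exact congrArg Subtype.val (congrFun hxy T)

/-- A socle element of degree one gives a nonzero Betti number `β_{n, n+1}`. -/
theorem betti_top_pos {I : Ideal (MvPolynomial (Fin n) K)} (k : Fin n)
    (hk : (X k : MvPolynomial (Fin n) K) ∉ I) (hs : ∀ l : Fin n, (X l * X k) ∈ I) :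
    1 ≤ betti I n (n + 1) := by
  have hn : n + 1 - n = 1 := by omega
  rw [betti, if_pos (Nat.le_succ n), hn]
  have hb : bdries I n 1 = ⊥ := by
    rw [bdries, eq_bot_iff]
    rintro _ ⟨ω, hω, rfl⟩
    have : ω = 0 := by
      funext T
      refine (hω T).2 ?_
      have := Finset.card_le_univ T
      rw [Fintype.card_fin] at this
      omega
    rw [this, map_zero]
    exact zero_mem _
  rw [hb]
  have hc : Submodule.comap (cycles I n 1).subtype ⊥ = ⊥ := by
    rw [Submodule.comap_bot, Submodule.ker_subtype]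
  rw [hc]
  have e := (Submodule.quotEquivOfEqBot (⊥ : Submodule K (cycles I n 1)) rfl).finrank_eq
  rw [e]
  have hfin : Module.Finite K (cycles I n 1) :=
    Submodule.finiteDimensional_of_le (inf_le_left : cycles I n 1 ≤ chain I n 1)
  let ω : Finset (Fin n) → MvPolynomial (Fin n) K ⧸ I := fun T =>
    if T = Finset.univ then Ideal.Quotient.mk I (X k) else 0
  have hω : ω ∈ cycles I n 1 := by
    refine ⟨fun T => ⟨?_, fun h => ?_⟩, ?_⟩
    · change (if T = Finset.univ then Ideal.Quotient.mk I (X k) else 0) ∈ part I 1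
      split_ifs
      · exact ⟨X k, isHomogeneous_X _ _, rfl⟩
      · exact zero_mem _
    · change (if T = Finset.univ then Ideal.Quotient.mk I (X k) else 0) = 0
      rw [if_neg]
      rintro rfl
      apply h
      rw [Finset.card_univ, Fintype.card_fin]
    · change kdiff I ω = 0
      funext T
      rw [kdiff_apply]
      refine Finset.sum_eq_zero fun l _ => ?_
      change _ * (_ * (if insert l T = Finset.univ then Ideal.Quotient.mk I (X k) else 0)) = 0
      split_ifs
      · rw [← map_mul, Ideal.Quotient.eq_zero_iff_mem.2 (hs l), mul_zero]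
      · rw [mul_zero, mul_zero]
  have hne : (⟨ω, hω⟩ : cycles I n 1) ≠ 0 := by
    intro h
    have h1 := congrFun (congrArg Subtype.val h) Finset.univ
    change (if (Finset.univ : Finset (Fin n)) = Finset.univ then
      Ideal.Quotient.mk I (X k) else 0) = 0 at h1
    rw [if_pos rfl, Ideal.Quotient.eq_zero_iff_mem] at h1
    exact hk h1
  have : Nontrivial (cycles I n 1) := ⟨⟨_, _, hne⟩⟩
  exact Module.finrank_pos

end One

end Pool.Agent.KS6_52.KB

end
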