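import Mathlib

/-!
A finite check.
-/

set_option autoImplicit false

namespace Pool.Agent.KS6_52.KB

/-- The conclusion of the check for one set of parameters. -/
def good (g n12 n13 n23 n1 n2 n3 e12 e13 e23 : ℕ) : Bool :=
  !(decide (27 + 4 * ((if e12 = 0 then 3 ^ (1 + (n1 + n2 + n12 + n13 + n23 + g)) else 0) +
      (if e13 = 0 then 3 ^ (1 + (n1 + n3 + n12 + n13 + n23 + g)) else 0) +
      (if e23 = 0 then 3 ^ (1 + (n2 + n3 + n12 + n13 + n23 + g)) else 0)) =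
    513 + 2 * (3 ^ (2 + (n1 + n12 + n13 + g)) + 3 ^ (2 + (n2 + n12 + n23 + g)) +
      3 ^ (2 + (n3 + n13 + n23 + g))) +
      8 * (if e12 = 0 ∧ e13 = 0 ∧ e23 = 0 then 3 ^ (n1 + n2 + n3 + n12 + n13 + n23 + g) else 0))) ||
  (decide (n1 + n12 + n13 + g + e12 + e13 ≤ 4) && decide (n2 + n12 + n23 + g + e12 + e23 ≤ 4) &&
    decide (n3 + n13 + n23 + g + e13 + e23 ≤ 4) && decide (g ≤ 2) &&
    decide (n12 + g + e13 * e23 ≤ 3) && decide (n13 + g + e12 * e23 ≤ 3) &&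
    decide (n23 + g + e12 * e13 ≤ 3))

/-- The check. -/
def chk : Bool :=
  (List.range 4).all fun g => (List.range 6).all fun n12 => (List.range 6).all fun n13 =>
    (List.range 6).all fun n23 => (List.range 2).all fun e12 => (List.range 2).all fun e13 =>
      (List.range 2).all fun e23 =>
        if 10 < 3 * g + 2 * (n12 + n13 + n23) + e12 + e13 + e23 then true else
          (List.range (10 - (3 * g + 2 * (n12 + n13 + n23) + e12 + e13 + e23) + 1)).all fun n1 =>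
            (List.range (10 - (3 * g + 2 * (n12 + n13 + n23) + e12 + e13 + e23) - n1 + 1)).all
              fun n2 => good g n12 n13 n23 n1 n2
                (10 - (3 * g + 2 * (n12 + n13 + n23) + e12 + e13 + e23) - n1 - n2) e12 e13 e23

theorem chk_true : chk = true := by decide +kernel

theorem check {g n12 n13 n23 n1 n2 n3 e12 e13 e23 : ℕ} (h12 : e12 ≤ 1) (h13 : e13 ≤ 1)
    (h23 : e23 ≤ 1)
    (h1 : n1 + n2 + n3 + 2 * (n12 + n13 + n23) + 3 * g + e12 + e13 + e23 = 10)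
    (h2 : 27 + 4 * ((if e12 = 0 then 3 ^ (1 + (n1 + n2 + n12 + n13 + n23 + g)) else 0) +
      (if e13 = 0 then 3 ^ (1 + (n1 + n3 + n12 + n13 + n23 + g)) else 0) +
      (if e23 = 0 then 3 ^ (1 + (n2 + n3 + n12 + n13 + n23 + g)) else 0)) =
    513 + 2 * (3 ^ (2 + (n1 + n12 + n13 + g)) + 3 ^ (2 + (n2 + n12 + n23 + g)) +
      3 ^ (2 + (n3 + n13 + n23 + g))) +
      8 * (if e12 = 0 ∧ e13 = 0 ∧ e23 = 0 then
        3 ^ (n1 + n2 + n3 + n12 + n13 + n23 + g) else 0)) :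
    n1 + n12 + n13 + g + e12 + e13 ≤ 4 ∧ n2 + n12 + n23 + g + e12 + e23 ≤ 4 ∧
      n3 + n13 + n23 + g + e13 + e23 ≤ 4 ∧ g ≤ 2 ∧ n12 + g + e13 * e23 ≤ 3 ∧
      n13 + g + e12 * e23 ≤ 3 ∧ n23 + g + e12 * e13 ≤ 3 := by
  have h := chk_true
  unfold chk at h
  simp only [List.all_eq_true, List.mem_range] at h
  have h3 := h g (by omega) n12 (by omega) n13 (by omega) n23 (by omega) e12 (by omega) e13
    (by omega) e23 (by omega)
  rw [if_neg (by omega)] at h3
  simp only [List.all_eq_true, List.mem_range] at h3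
  have h4 := h3 n1 (by omega) n2 (by omega)
  have e3 : 10 - (3 * g + 2 * (n12 + n13 + n23) + e12 + e13 + e23) - n1 - n2 = n3 := by omega
  rw [e3] at h4
  unfold good at h4
  rw [decide_eq_true h2] at h4
  simp only [Bool.not_true, Bool.false_or, Bool.and_eq_true, decide_eq_true_eq] at h4
  obtain ⟨⟨⟨⟨⟨⟨a1, a2⟩, a3⟩, a4⟩, a5⟩, a6⟩, a7⟩ := h4
  exact ⟨a1, a2, a3, a4, a5, a6, a7⟩

end Pool.Agent.KS6_52.KB
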