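import Mathlib

/-!
Koszul algebras, `h`-polynomials and graded Betti numbers.

For `R = S / I`, `S = K[x_1, ..., x_n]`, the space `Tor_i^S(R, K)_j` is the homology at
`Λ^i S_1 ⊗ R_{j-i}` of the Koszul complex
`Λ^{i+1} S_1 ⊗ R_{j-i-1} → Λ^i S_1 ⊗ R_{j-i} → Λ^{i-1} S_1 ⊗ R_{j-i+1}`.
-/

set_option autoImplicit false

noncomputable section

namespace Pool.Agent.KS6_52.KB.D

section Dim

variable {K M : Type} [Field K] [AddCommGroup M] [Module K M]

/-- The dimension of the quotient of `Z` by `Z ∩ B` (the homology, when `Z` are the cycles and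
`B` the boundaries; there `B ⊆ Z`). -/
def quotDim (Z B : Submodule K M) : ℕ := Module.finrank K (Z ⧸ B.comap Z.subtype)

/-- The dimension of the `j`-th subspace. -/
def dimOf (V : ℕ → Submodule K M) (j : ℕ) : ℕ := Module.finrank K (V j)

end Dim

section Kos

variable {R : Type} [CommRing R] {n : ℕ}

/-- The Koszul differential of `∑_T e_T ⊗ ω_T`, `e_T = e_{t_1} ∧ ... ∧ e_{t_i}` for
`T = {t_1 < ... < t_i}`, where
`e_T ⊗ r ↦ ∑_j (-1)^{j-1} e_{T - t_j} ⊗ x_{t_j} r`: the coefficient of `e_T` in it is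
`∑_{k ∉ T} ± x_k ω_{T ∪ k}`, the sign being `(-1)^{number of elements of T below k}`. -/
def kd (x : Fin n → R) (ω : Finset (Fin n) → R) (T : Finset (Fin n)) : R :=
  ∑ k ∈ Tᶜ, (-1) ^ (T.filter (· < k)).card * (x k * ω (insert k T))

variable (K : Type) [Field K] [Algebra K R]

/-- The Koszul differential as a linear map. -/
def kdiff (x : Fin n → R) : (Finset (Fin n) → R) →ₗ[K] (Finset (Fin n) → R) where
  toFun := kd x
  map_add' y z := by
    funext T
    simp only [kd, Pi.add_apply, mul_add, Finset.sum_add_distrib]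
  map_smul' c y := by
    funext T
    simp only [kd, Pi.smul_apply, mul_smul_comm, Finset.smul_sum, RingHom.id_apply]

variable {K}

/-- `Λ^i S_1 ⊗ R_d`, where `R_d = V d`: the element `∑_{|T| = i} e_T ⊗ ω_T` is the function
`T ↦ ω_T`, extended by zero to the sets `T` with `|T| ≠ i`. -/
def chain (n : ℕ) (V : ℕ → Submodule K R) (i d : ℕ) : Submodule K (Finset (Fin n) → R) where
  carrier := {ω | ∀ T, ω T ∈ V d ∧ (T.card ≠ i → ω T = 0)}
  add_mem' := by
    intro x y hx hy T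
    refine ⟨add_mem (hx T).1 (hy T).1, fun h => ?_⟩
    rw [Pi.add_apply, (hx T).2 h, (hy T).2 h, add_zero]
  zero_mem' := fun _ => ⟨zero_mem _, fun _ => rfl⟩
  smul_mem' := by
    intro c x hx T
    refine ⟨Submodule.smul_mem _ _ (hx T).1, fun h => ?_⟩
    rw [Pi.smul_apply, (hx T).2 h, smul_zero]

/-- The cycles in `Λ^i S_1 ⊗ R_d`. -/
def cycles (x : Fin n → R) (V : ℕ → Submodule K R) (i d : ℕ) :
    Submodule K (Finset (Fin n) → R) :=
  chain n V i d ⊓ LinearMap.ker (kdiff K x)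

/-- The boundaries in `Λ^i S_1 ⊗ R_d`: the image of `Λ^{i+1} S_1 ⊗ R_{d-1}`. -/
def bdries (x : Fin n → R) (V : ℕ → Submodule K R) (i : ℕ) :
    ℕ → Submodule K (Finset (Fin n) → R)
  | 0 => ⊥
  | d + 1 => (chain n V (i + 1) d).map (kdiff K x)

/-- The dimension of the homology of the Koszul complex of `x_1, ..., x_n` at
`Λ^i S_1 ⊗ R_{j-i}`, where `R_d = V d`. -/
def kbetti (x : Fin n → R) (V : ℕ → Submodule K R) (i j : ℕ) : ℕ :=
  if i ≤ j then quotDim (cycles x V i (j - i)) (bdries x V i (j - i)) else 0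

/-- The `R`-module `R / m` has a free resolution whose matrices have their entries in `L`. -/
def HasLinearResolution (L : Set R) (m : Ideal R) : Prop :=
  ∃ (b : ℕ → ℕ) (M : ∀ i : ℕ, Matrix (Fin (b i)) (Fin (b (i + 1))) R),
    b 0 = 1 ∧ (∀ (i : ℕ) (r : Fin (b i)) (c : Fin (b (i + 1))), M i r c ∈ L) ∧
    (∀ u : Fin (b 0) → R, (∃ w, Matrix.mulVec (M 0) w = u) ↔ ∀ r, u r ∈ m) ∧
    (∀ (i : ℕ) (v : Fin (b (i + 1)) → R),
      Matrix.mulVec (M i) v = 0 ↔ ∃ w, Matrix.mulVec (M (i + 1)) w = v)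

/-- `∑_j H(j) z^j = h(z)/(1 - z)^d` for some `d`, and `h(1) ≠ 0`. -/
def IsHPolyOf (H : ℕ → ℕ) (h : Polynomial ℤ) : Prop :=
  h.eval 1 ≠ 0 ∧ ∃ d : ℕ, (1 - PowerSeries.X) ^ d * PowerSeries.mk (fun j : ℕ => (H j : ℤ)) =
    (h : PowerSeries ℤ)

end Kos

section Alg

open MvPolynomial

variable {K : Type} [Field K] {n : ℕ}

/-- The degree `d` part `R_d` of `R = K[x_1, ..., x_n]/I`. -/
def part (I : Ideal (MvPolynomial (Fin n) K)) (d : ℕ) :
    Submodule K (MvPolynomial (Fin n) K ⧸ I) :=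
  Submodule.map (Ideal.Quotient.mkₐ K I).toLinearMap (homogeneousSubmodule (Fin n) K d)

/-- The graded Betti number `β_{i,j}^S(S/I) = dim_K Tor_i^S(S/I, K)_j`, `S = K[x_1, ..., x_n]`, as
the dimension of the homology of the Koszul complex of `x_1, ..., x_n` on `S/I`. -/
def betti (I : Ideal (MvPolynomial (Fin n) K)) (i j : ℕ) : ℕ :=
  kbetti (fun k => Ideal.Quotient.mk I (X k)) (part I) i j

/-- The ideal `(x_1, ..., x_n)`. -/
def maxId (K : Type) [Field K] (n : ℕ) : Ideal (MvPolynomial (Fin n) K) :=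
  RingHom.ker (MvPolynomial.constantCoeff : MvPolynomial (Fin n) K →+* K)

/-- `K[x_1, ..., x_n]/I` is a standard graded algebra in its canonical presentation: `I` is
homogeneous and contained in `(x_1, ..., x_n)^2`. -/
def IsStandard (I : Ideal (MvPolynomial (Fin n) K)) : Prop :=
  (∀ p ∈ I, ∀ j : ℕ, homogeneousComponent j p ∈ I) ∧ I ≤ maxId K n ^ 2

/-- The linear forms of `R = K[x_1, ..., x_n]/I`. -/
def linForms (I : Ideal (MvPolynomial (Fin n) K)) : Set (MvPolynomial (Fin n) K ⧸ I) :=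
  {r | r ∈ part I 1}

/-- The maximal homogeneous ideal of `R = K[x_1, ..., x_n]/I`. -/
def maxIdeal (I : Ideal (MvPolynomial (Fin n) K)) : Ideal (MvPolynomial (Fin n) K ⧸ I) :=
  Ideal.map (Ideal.Quotient.mk I) (maxId K n)

/-- `R = K[x_1, ..., x_n]/I` is Koszul: its residue field has a free resolution over `R` whose
matrices consist of linear forms. -/
def IsKoszul (I : Ideal (MvPolynomial (Fin n) K)) : Prop :=
  HasLinearResolution (linForms I) (maxIdeal I)

/-- The Hilbert function of `K[x_1, ..., x_n]/I`. -/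
def hilb (I : Ideal (MvPolynomial (Fin n) K)) (j : ℕ) : ℕ := dimOf (part I) j

/-- `h` is the `h`-polynomial of `R = K[x_1, ..., x_n]/I`: the Hilbert series of `R` is
`h(z)/(1 - z)^d` for some `d`, and `h(1) ≠ 0`. -/
def IsHPoly (I : Ideal (MvPolynomial (Fin n) K)) (h : Polynomial ℤ) : Prop :=
  IsHPolyOf (hilb I) h

/-- The algebras `K[x_1, ..., x_n]/I` and `K[y_1, ..., y_m]/J` have the same `h`-polynomial. -/
def SameH {m : ℕ} (I : Ideal (MvPolynomial (Fin n) K)) (J : Ideal (MvPolynomial (Fin m) K)) :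
    Prop :=
  ∃ h : Polynomial ℤ, IsHPoly I h ∧ IsHPoly J h

/-- `E` is a set of exponents of monomials of degree `2`. -/
def IsQuadratic {m : ℕ} (E : Set (Fin m →₀ ℕ)) : Prop := ∀ e ∈ E, ∑ i, e i = 2

/-- The ideal generated by the monomials with exponents in `E`. -/
def mon (K : Type) [Field K] {m : ℕ} (E : Set (Fin m →₀ ℕ)) : Ideal (MvPolynomial (Fin m) K) :=
  Ideal.span ((fun e => MvPolynomial.monomial e (1 : K)) '' E)

end Alg

end Pool.Agent.KS6_52.KB.D

end
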