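import Pool.Agent.KS6_52.KB.Graph
import Pool.Graph.R_pool_sql_team_seeded_ab47071d.TH884.KF.Bound

/-!
A quadratic monomial algebra with the `h`-polynomial of the example.
-/

set_option autoImplicit false

noncomputable section

namespace Pool.Agent.KS6_52.KB

open Pool.Agent.TH884.KF (KP HS mul_HS ex_le)

/-- The pairs of variables with nonzero product: `ab`, `ae`, `c^2`, `cd`, `d^2`, where
`a, b, c, d, e` are the variables `0, 1, 2, 3, 4`. -/
def allowed : List (Fin 5 × Fin 5) :=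
  [(0, 1), (1, 0), (0, 4), (4, 0), (2, 2), (2, 3), (3, 2), (3, 3)]

/-- The exponents of the monomials `a^2, b^2, e^2, be, ac, ad, bc, bd, ec, ed`. -/
def E0 : Set (Fin 5 →₀ ℕ) :=
  {e | ∃ p q : Fin 5, (p, q) ∉ allowed ∧ e = Finsupp.single p 1 + Finsupp.single q 1}

lemma sum_pair_eq_two {m : ℕ} (p q : Fin m) :
    ∑ i, (Finsupp.single p 1 + Finsupp.single q 1 : Fin m →₀ ℕ) i = 2 := by
  have h5 : ∀ r : Fin m, ∑ i, (Finsupp.single r 1 : Fin m →₀ ℕ) i = 1 := by
    intro r
    simp [Finsupp.single_apply]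
  simp only [Finsupp.add_apply, Finset.sum_add_distrib, h5]

lemma E0_two : ∀ e ∈ E0, ∑ i, e i = 2 := by
  rintro e ⟨p, q, -, rfl⟩
  exact sum_pair_eq_two p q

lemma allowed_symm : ∀ p q : Fin 5, (p, q) ∉ allowed → (q, p) ∉ allowed := by decide

lemma adj_E0 (p q : Fin 5) : Adj E0 p q ↔ (p, q) ∉ allowed := by
  constructor
  · rintro ⟨p', q', h, h1⟩
    rcases pair_eq_iff.1 h1 with ⟨rfl, rfl⟩ | ⟨rfl, rfl⟩
    · exact h
    · exact allowed_symm _ _ h
  · intro h
    exact ⟨p, q, h, rfl⟩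

lemma ee_E0 (p q : Fin 5) : ee E0 p q = if (p, q) ∈ allowed then 0 else 1 := by
  classical
  unfold ee
  simp only [adj_E0]
  split_ifs <;> simp_all

lemma cnt_dec (C : Finset (Fin 5)) (P : Fin 5 → Prop) [DecidablePred P] :
    cnt C P = (Finset.univ.filter fun i => i ∉ C ∧ P i).card := by
  unfold cnt
  congr

lemma KP_E0 : KP E0 = (1 - Polynomial.X) ^ 3 * hpoly := by
  have h := KP_three E0_two (a := 0) (b := 1) (c := 4) (by decide) (by decide) (by decide)
    (by
      intro p q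
      rw [adj_E0]
      revert p q
      decide)
  rw [h]
  simp only [adj_E0, ee_E0, cnt_dec]
  have c1 : ∀ x ∈ ({0, 1, 4} : Finset (Fin 5)), (Finset.univ.filter fun i : Fin 5 =>
      i ∉ ({0, 1, 4} : Finset (Fin 5)) ∧ (x, i) ∉ allowed).card = 2 := by decide
  have c2 : ∀ x ∈ ({0, 1, 4} : Finset (Fin 5)), ∀ y ∈ ({0, 1, 4} : Finset (Fin 5)),
      (Finset.univ.filter fun i : Fin 5 =>
      i ∉ ({0, 1, 4} : Finset (Fin 5)) ∧ ((x, i) ∉ allowed ∨ (y, i) ∉ allowed)).card = 2 := by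
    decide
  rw [c1 0 (by decide), c1 1 (by decide), c1 4 (by decide), c2 0 (by decide) 1 (by decide),
    c2 0 (by decide) 4 (by decide)]
  rw [if_neg (by decide : ((0 : Fin 5), (0 : Fin 5)) ∉ allowed),
    if_neg (by decide : ((1 : Fin 5), (1 : Fin 5)) ∉ allowed),
    if_neg (by decide : ((4 : Fin 5), (4 : Fin 5)) ∉ allowed),
    if_pos (by decide : ((0 : Fin 5), (1 : Fin 5)) ∈ allowed),
    if_pos (by decide : ((0 : Fin 5), (4 : Fin 5)) ∈ allowed),
    if_neg (by decide : ((1 : Fin 5), (4 : Fin 5)) ∉ allowed)]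
  simp only [if_true, one_ne_zero, if_false, and_false]
  rw [hpoly]
  ring

/-- The Hilbert series of the monomial algebra. -/
theorem hilbert_E0 {K : Type} [Field K] : (1 - PowerSeries.X) ^ 2 * PowerSeries.mk (fun j : ℕ =>
    ((Module.finrank K (part (mon K E0) j) : ℕ) : ℤ)) = (hpoly : PowerSeries ℤ) := by
  have h1 : (PowerSeries.mk (fun j : ℕ => ((Module.finrank K (part (mon K E0) j) : ℕ) : ℤ)) :
      PowerSeries ℤ) = HS E0 := by
    ext j
    rw [HS, PowerSeries.coeff_mk, PowerSeries.coeff_mk, part, mon,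
      Pool.Agent.TH884.KF.finrank_monomial]
  rw [h1]
  have h2 := mul_HS (E := E0) (fun e he i => ex_le (E0_two e he) i)
  have e1 : ((1 - Polynomial.X : Polynomial ℤ) : PowerSeries ℤ) = 1 - PowerSeries.X := by simp
  rw [KP_E0, Polynomial.coe_mul, Polynomial.coe_pow, e1] at h2
  have hne : (1 - PowerSeries.X : PowerSeries ℤ) ^ 3 ≠ 0 := by
    apply pow_ne_zero
    intro h0
    have := congrArg (PowerSeries.coeff 0) h0
    simp at this
  apply mul_left_cancel₀ hne
  rw [← h2]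
  ring

end Pool.Agent.KS6_52.KB

end
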