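import Pool.Agent.KS6_52.KB.Struct2

/-!
The Betti number `β_{5,6}` of every quadratic monomial algebra with the numerator of the example
vanishes.
-/

set_option autoImplicit false

noncomputable section

namespace Pool.Agent.KS6_52.KB

open Pool.Agent.TH884.KF (KP)

variable {m : ℕ}

lemma ee_comm (E : Set (Fin m →₀ ℕ)) (a b : Fin m) : ee E a b = ee E b a := by
  classical
  unfold ee
  by_cases h : Adj E a b
  · rw [if_pos h, if_pos h.symm]
  · rw [if_neg h, if_neg (fun h' => h h'.symm)]

lemma ee_one {E : Set (Fin m →₀ ℕ)} {a b : Fin m} (h : Adj E a b) : ee E a b = 1 := by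
  classical
  unfold ee
  rw [if_pos h]

lemma le_cnt {C S : Finset (Fin m)} {P : Fin m → Prop} (h : ∀ i ∈ S, i ∉ C ∧ P i) :
    S.card ≤ cnt C P := by
  classical
  refine Finset.card_le_card fun i hi => ?_
  exact Finset.mem_filter.2 ⟨Finset.mem_univ _, h i hi⟩

section

variable {E : Set (Fin m →₀ ℕ)} {a b c : Fin m}

/-- The number of neighbours of a variable, counting itself. -/
lemma deg_le (hab : a ≠ b) (hac : a ≠ c) (hbc : b ≠ c) {S : Finset (Fin m)} {x : Fin m}
    (hS : ∀ p ∈ S, Adj E p x) :
    S.card ≤ cnt {a, b, c} (fun i => Adj E x i) + (ee E x a + ee E x b + ee E x c) := by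
  classical
  have h1 : S ⊆ (Finset.univ.filter fun i => i ∉ ({a, b, c} : Finset (Fin m)) ∧ Adj E x i) ∪
      (({a, b, c} : Finset (Fin m)).filter fun i => Adj E x i) := by
    intro p hp
    rw [Finset.mem_union, Finset.mem_filter, Finset.mem_filter]
    by_cases h : p ∈ ({a, b, c} : Finset (Fin m))
    · exact Or.inr ⟨h, (hS p hp).symm⟩
    · exact Or.inl ⟨Finset.mem_univ _, h, (hS p hp).symm⟩
  have h2 : (({a, b, c} : Finset (Fin m)).filter fun i => Adj E x i).card =
      ee E x a + ee E x b + ee E x c := by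
    rw [Finset.card_filter, Finset.sum_insert (by simp [hab, hac]), Finset.sum_pair hbc]
    unfold ee
    ring
  have h3 := le_trans (Finset.card_le_card h1) (Finset.card_union_le _ _)
  rw [h2] at h3
  have h4 : (Finset.univ.filter fun i => i ∉ ({a, b, c} : Finset (Fin m)) ∧ Adj E x i).card =
      cnt {a, b, c} (fun i => Adj E x i) := by
    unfold cnt
    congr
  rw [h4] at h3
  exact h3

/-- No `K_{2,4}`. -/
lemma no_K24 {C : Finset (Fin m)} (hcard : C.card = 3)
    (hC : ∀ p q, Adj E p q → p ∈ C ∨ q ∈ C) {x y z : Fin m} (hmem : ∀ i, i ∈ C ↔ i = x ∨ i = y ∨ i = z)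
    (hb : cnt C (fun i => Adj E x i ∧ Adj E y i) + ee E x z * ee E y z ≤ 3)
    {S : Finset (Fin m)} (hS : S.card = 4) (hx : x ∉ S) (hy : y ∉ S)
    (hadj : ∀ s ∈ S, Adj E x s ∧ Adj E y s) : False := by
  classical
  by_cases hz : z ∈ S
  · have h1 := hadj z hz
    rw [ee_one h1.1, ee_one h1.2] at hb
    have h2 : (S.erase z).card ≤ cnt C (fun i => Adj E x i ∧ Adj E y i) := by
      refine le_cnt fun i hi => ⟨fun hiC => ?_, hadj i (Finset.mem_of_mem_erase hi)⟩
      rcases (hmem i).1 hiC with rfl | rfl | rfl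
      · exact hx (Finset.mem_of_mem_erase hi)
      · exact hy (Finset.mem_of_mem_erase hi)
      · exact (Finset.notMem_erase _ _) hi
    rw [Finset.card_erase_of_mem hz, hS] at h2
    omega
  · have h2 : S.card ≤ cnt C (fun i => Adj E x i ∧ Adj E y i) := by
      refine le_cnt fun i hi => ⟨fun hiC => ?_, hadj i hi⟩
      rcases (hmem i).1 hiC with rfl | rfl | rfl
      · exact hx hi
      · exact hy hi
      · exact hz hi
    omega

/-- No `K_{3,3}`. -/
lemma no_K33 (hcard : ({a, b, c} : Finset (Fin m)).card = 3)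
    (hC : ∀ p q, Adj E p q → p ∈ ({a, b, c} : Finset (Fin m)) ∨
      q ∈ ({a, b, c} : Finset (Fin m)))
    (hb : cnt {a, b, c} (fun i => Adj E a i ∧ Adj E b i ∧ Adj E c i) ≤ 2)
    {S T : Finset (Fin m)} (hS : S.card = 3) (hT : T.card = 3) (hdis : Disjoint S T)
    (hadj : ∀ s ∈ S, ∀ t ∈ T, Adj E s t) : False := by
  classical
  have key : ∀ S T : Finset (Fin m), S.card = 3 → T.card = 3 → Disjoint S T →
      (∀ s ∈ S, ∀ t ∈ T, Adj E s t) → ¬ S ⊆ {a, b, c} := by
    intro S T hS hT hdis hadj hsub
    have hSC : S = {a, b, c} := Finset.eq_of_subset_of_card_le hsub (by rw [hcard, hS])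
    have h1 : T.card ≤ cnt {a, b, c} (fun i => Adj E a i ∧ Adj E b i ∧ Adj E c i) := by
      refine le_cnt fun i hi => ⟨fun hiC => ?_, hadj a ?_ i hi, hadj b ?_ i hi, hadj c ?_ i hi⟩
      · rw [← hSC] at hiC
        exact (Finset.disjoint_left.1 hdis) hiC hi
      · rw [hSC]; simp
      · rw [hSC]; simp
      · rw [hSC]; simp
    omega
  have h1 := key S T hS hT hdis hadj
  have h2 := key T S hT hS hdis.symm (fun t ht s hs => (hadj s hs t ht).symm)
  rw [Finset.not_subset] at h1
  obtain ⟨s, hs, hsC⟩ := h1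
  exact h2 fun t ht => (hC s t (hadj s hs t ht)).resolve_left hsC

end

/-- `β_{5,6}` vanishes for every quadratic monomial algebra with the numerator of the example. -/
theorem betti_monomial {K : Type} [Field K] {E : Set (Fin m →₀ ℕ)} (hE : ∀ e ∈ E, ∑ i, e i = 2)
    (hm : 3 ≤ m) (hK : KP E = (1 - Polynomial.X) ^ 3 * hpoly) : betti (mon K E) 5 6 = 0 := by
  classical
  obtain ⟨C, hcard, hC⟩ := exists_cover3 hE (h := hpoly) (by rw [hpoly_eval]; norm_num) hm hK
  obtain ⟨a, b, c, hab, hac, hbc, rfl⟩ := Finset.card_eq_three.1 hcard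
  obtain ⟨r1, r2, r3, r4, r5, r6, r7⟩ := bounds hE hab hac hbc hC hK
  have hdeg : ∀ (x : Fin m) (S : Finset (Fin m)), (∀ p ∈ S, Adj E p x) → S.card ≤ 4 := by
    intro x S hS
    by_cases hx : x ∈ ({a, b, c} : Finset (Fin m))
    · have h1 := deg_le hab hac hbc hS
      simp only [Finset.mem_insert, Finset.mem_singleton] at hx
      rcases hx with rfl | rfl | rfl
      · omega
      · rw [ee_comm E x a] at h1
        omega
      · rw [ee_comm E x a, ee_comm E x b] at h1
        omega
    · have h1 : S ⊆ {a, b, c} := fun p hp => (hC p x (hS p hp)).resolve_right hx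
      have h2 := Finset.card_le_card h1
      omega
  refine betti_five_six hE ?_ ?_
  · intro T hT q hq
    by_contra hcon
    push Not at hcon
    have := hdeg q T hcon
    omega
  · intro W hW f hf p0 hp0 q0 hq0
    by_contra hne
    set W1 := W.filter (fun w => f w = f p0) with hW1
    set W2 := W.filter (fun w => ¬ f w = f p0) with hW2
    have hcards : W1.card + W2.card = 6 := by
      rw [hW1, hW2, Finset.card_filter_add_card_filter_not]
      exact hW
    have hdis : Disjoint W1 W2 := Finset.disjoint_filter_filter_not W W (fun w => f w = f p0)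
    have hadj : ∀ s ∈ W1, ∀ t ∈ W2, Adj E s t := by
      intro s hs t ht
      by_contra hst
      have hs' := Finset.mem_filter.1 hs
      have ht' := Finset.mem_filter.1 ht
      have hne' : s ≠ t := by
        rintro rfl
        exact ht'.2 hs'.2
      have := hf s hs'.1 t ht'.1 hne' hst
      exact ht'.2 (this.symm.trans hs'.2)
    have hp1 : p0 ∈ W1 := Finset.mem_filter.2 ⟨hp0, rfl⟩
    have hq2 : q0 ∈ W2 := Finset.mem_filter.2 ⟨hq0, fun h => hne h.symm⟩
    have c2 : W2.card ≤ 4 := hdeg p0 W2 fun p hp => (hadj p0 hp1 p hp).symm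
    have c1 : W1.card ≤ 4 := hdeg q0 W1 fun p hp => hadj p hp q0 hq2
    -- the case of two and four variables
    have k24 : ∀ S T : Finset (Fin m), S.card = 2 → T.card = 4 → Disjoint S T →
        (∀ s ∈ S, ∀ t ∈ T, Adj E s t) → False := by
      intro S T hS hT hST had
      obtain ⟨x, y, hxy, rfl⟩ := Finset.card_eq_two.1 hS
      have hxS : x ∈ ({x, y} : Finset (Fin m)) := by simp
      have hyS : y ∈ ({x, y} : Finset (Fin m)) := by simp
      have hxT : x ∉ T := Finset.disjoint_left.1 hST hxS
      have hyT : y ∉ T := Finset.disjoint_left.1 hST hyS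
      have inC : ∀ s ∈ ({x, y} : Finset (Fin m)), s ∈ ({a, b, c} : Finset (Fin m)) := by
        intro s hs
        by_contra hsC
        have h1 : T ⊆ {a, b, c} := fun t ht => (hC s t (had s hs t ht)).resolve_left hsC
        have h2 := Finset.card_le_card h1
        omega
      have hx := inC x hxS
      have hy := inC y hyS
      have had' : ∀ s ∈ T, Adj E x s ∧ Adj E y s := fun s hs => ⟨had x hxS s hs, had y hyS s hs⟩
      simp only [Finset.mem_insert, Finset.mem_singleton] at hx hy
      rcases hx with rfl | rfl | rfl <;> rcases hy with rfl | rfl | rfl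
      · exact hxy rfl
      · exact no_K24 (z := c) hcard hC (by intro i; simp) r5 hT hxT hyT had'
      · refine no_K24 (z := b) hcard hC (by intro i; simp; tauto) ?_ hT hxT hyT had'
        rw [ee_comm E y b]
        exact r6
      · refine no_K24 (z := c) hcard hC (by intro i; simp; tauto) ?_ hT hxT hyT had'
        rw [cnt_congr (Q := fun i => Adj E y i ∧ Adj E x i) (fun i => and_comm), mul_comm]
        exact r5
      · exact hxy rfl
      · refine no_K24 (z := a) hcard hC (by intro i; simp; tauto) ?_ hT hxT hyT had'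
        rw [ee_comm E x a, ee_comm E y a]
        exact r7
      · refine no_K24 (z := b) hcard hC (by intro i; simp; tauto) ?_ hT hxT hyT had'
        rw [cnt_congr (Q := fun i => Adj E y i ∧ Adj E x i) (fun i => and_comm), mul_comm,
          ee_comm E x b]
        exact r6
      · refine no_K24 (z := a) hcard hC (by intro i; simp; tauto) ?_ hT hxT hyT had'
        rw [cnt_congr (Q := fun i => Adj E y i ∧ Adj E x i) (fun i => and_comm), mul_comm,
          ee_comm E x a, ee_comm E y a]
        exact r7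
      · exact hxy rfl
    have c1' : 1 ≤ W1.card := Finset.card_pos.2 ⟨p0, hp1⟩
    have hcases : (W1.card = 2 ∧ W2.card = 4) ∨ (W1.card = 3 ∧ W2.card = 3) ∨
        (W1.card = 4 ∧ W2.card = 2) := by omega
    rcases hcases with ⟨h1, h2⟩ | ⟨h1, h2⟩ | ⟨h1, h2⟩
    · exact k24 W1 W2 h1 h2 hdis hadj
    · exact no_K33 hcard hC r4 h1 h2 hdis hadj
    · exact k24 W2 W1 h2 h1 hdis.symm fun s hs t ht => (hadj t ht s hs).symm

end Pool.Agent.KS6_52.KB

end
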