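import Pool.Agent.KS6_52.KB.Model

/-!
The Koszul filtration of the ring `Q`.
-/

set_option autoImplicit false

open Polynomial

noncomputable section

namespace Pool.Agent.KS6_52.KB

open Pool.Agent.TH884.KF (LF exists_decomp)

variable {K : Type} [Field K]

namespace Q

lemma ext_iff' {x y : Q K} : x = y ↔
    x.p = y.p ∧ x.u = y.u ∧ x.v = y.v ∧ x.s = y.s ∧ x.t = y.t ∧ x.w = y.w :=
  Q.ext_iff

lemma mem_span_insert_pair (x y z r : Q K) : r ∈ (Ideal.span {x, y, z} : Ideal (Q K)) ↔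
    ∃ f g h : Q K, f * x + g * y + h * z = r := by
  rw [Ideal.mem_span_insert]
  constructor
  · rintro ⟨f, t, ht, rfl⟩
    rw [Ideal.mem_span_pair] at ht
    obtain ⟨g, h, rfl⟩ := ht
    exact ⟨f, g, h, by ring⟩
  · rintro ⟨f, g, h, rfl⟩
    exact ⟨f, g * y + h * z, Ideal.mem_span_pair.2 ⟨g, h, rfl⟩, by ring⟩

lemma mem_span_four (x y z w r : Q K) : r ∈ (Ideal.span {x, y, z, w} : Ideal (Q K)) ↔
    ∃ f g h k : Q K, f * x + g * y + h * z + k * w = r := by
  rw [Ideal.mem_span_insert]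
  constructor
  · rintro ⟨f, t, ht, rfl⟩
    rw [mem_span_insert_pair] at ht
    obtain ⟨g, h, k, rfl⟩ := ht
    exact ⟨f, g, h, k, by ring⟩
  · rintro ⟨f, g, h, k, rfl⟩
    exact ⟨f, g * y + h * z + k * w, (mem_span_insert_pair _ _ _ _).2 ⟨g, h, k, rfl⟩, by ring⟩

lemma mem_span_five (x y z w t r : Q K) : r ∈ (Ideal.span {x, y, z, w, t} : Ideal (Q K)) ↔
    ∃ f g h k l : Q K, f * x + g * y + h * z + k * w + l * t = r := by
  rw [Ideal.mem_span_insert]
  constructor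
  · rintro ⟨f, s, hs, rfl⟩
    rw [mem_span_four] at hs
    obtain ⟨g, h, k, l, rfl⟩ := hs
    exact ⟨f, g, h, k, l, by ring⟩
  · rintro ⟨f, g, h, k, l, rfl⟩
    exact ⟨f, g * y + h * z + k * w + l * t, (mem_span_four _ _ _ _ _).2 ⟨g, h, k, l, rfl⟩,
      by ring⟩

/-- The scalar `k` as an element. -/
def sc (k : K) : Q K := ⟨C (C k), 0, 0, 0, 0, 0⟩

@[simp] lemma sc_p (k : K) : (sc k).p = C (C k) := rfl
@[simp] lemma sc_u (k : K) : (sc k).u = 0 := rfl
@[simp] lemma sc_v (k : K) : (sc k).v = 0 := rfl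
@[simp] lemma sc_s (k : K) : (sc k).s = 0 := rfl
@[simp] lemma sc_t (k : K) : (sc k).t = 0 := rfl
@[simp] lemma sc_w (k : K) : (sc k).w = 0 := rfl

lemma mem_e (x : Q K) : x ∈ (Ideal.span {e} : Ideal (Q K)) ↔
    x.p = 0 ∧ x.u = 0 ∧ x.v = 0 ∧ x.s = 0 ∧ x.t = 0 := by
  rw [Ideal.mem_span_singleton']
  constructor
  · rintro ⟨r, rfl⟩
    simp
  · rintro ⟨h1, h2, h3, h4, h5⟩
    refine ⟨sc x.w, ?_⟩
    ext1 <;> simp [h1, h2, h3, h4, h5]

lemma mem_b (x : Q K) : x ∈ (Ideal.span {e, b} : Ideal (Q K)) ↔ x.p = 0 ∧ x.u = 0 := by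
  rw [Ideal.mem_span_pair]
  constructor
  · rintro ⟨r, s, rfl⟩
    simp
  · rintro ⟨h1, h2⟩
    refine ⟨sc x.w, ⟨C (C x.v), x.s, -x.t, 0, 0, 0⟩, ?_⟩
    ext1 <;> simp [h1, h2]

lemma mem_d (x : Q K) : x ∈ (Ideal.span {e, d} : Ideal (Q K)) ↔
    x.p.coeff 0 = 0 ∧ x.u = 0 ∧ x.v = 0 ∧ x.s = 0 := by
  rw [Ideal.mem_span_pair]
  constructor
  · rintro ⟨r, s, rfl⟩
    simp [mul_coeff_zero]
  · rintro ⟨h1, h2, h3, h4⟩
    obtain ⟨q, hq⟩ := X_dvd_iff.2 h1
    refine ⟨sc x.w, ⟨q, x.t, 0, 0, 0, 0⟩, ?_⟩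
    ext1 <;> simp [hq, h2, h3, h4, mul_comm]

lemma mem_bd (x : Q K) : x ∈ (Ideal.span {e, b, d} : Ideal (Q K)) ↔
    x.p.coeff 0 = 0 ∧ x.u = 0 := by
  rw [mem_span_insert_pair]
  constructor
  · rintro ⟨r, s, t, rfl⟩
    simp [mul_coeff_zero]
  · rintro ⟨h1, h2⟩
    obtain ⟨q, hq⟩ := X_dvd_iff.2 h1
    refine ⟨sc x.w, ⟨C (C x.v), x.s, -x.t, 0, 0, 0⟩, ⟨q, 0, 0, 0, 0, 0⟩, ?_⟩
    ext1 <;> simp [hq, h2, mul_comm]

lemma mem_dbc (x : Q K) : x ∈ (Ideal.span {e, d, b - c} : Ideal (Q K)) ↔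
    c0 x.p = 0 ∧ x.u = 0 ∧ x.v + cc x.p = 0 := by
  rw [mem_span_insert_pair]
  constructor
  · rintro ⟨q, r, s, rfl⟩
    simp
  · rintro ⟨h1, h2, h3⟩
    obtain ⟨f, g, h, hf, hg⟩ := exists_decomp x.p
    refine ⟨sc x.w, ⟨g, x.t + cc (-f), 0, 0, 0, 0⟩, ⟨-f, x.s, 0, 0, 0, 0⟩, ?_⟩
    ext1
    · rw [h1] at h
      simp only [add_p, mul_p, d_p, sub_p, b_p, c_p, e_p]
      rw [h]
      simp
      ring
    · simp [h2]
    · simp only [add_v, mul_v, d_v, sub_v, b_v, c_v, c0_neg, hf]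
      simp
      linear_combination -h3
    · simp
    · simp
    · simp

lemma mem_ab (x : Q K) : x ∈ (Ideal.span {e, a, b} : Ideal (Q K)) ↔ x.p = 0 := by
  rw [mem_span_insert_pair]
  constructor
  · rintro ⟨q, r, s, rfl⟩
    simp
  · intro h1
    refine ⟨sc x.w, sc x.u, ⟨C (C x.v), x.s, -x.t, 0, 0, 0⟩, ?_⟩
    ext1 <;> simp [h1]

lemma mem_abc (x : Q K) : x ∈ (Ideal.span {e, a, b, c} : Ideal (Q K)) ↔
    (C X : K[X][X]) ∣ x.p := by
  rw [mem_span_four]
  constructor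
  · rintro ⟨f, g, h, k, rfl⟩
    exact ⟨k.p, by simp [mul_comm]⟩
  · rintro ⟨f, hf⟩
    refine ⟨sc x.w, sc x.u, ⟨C (C x.v), x.s, -x.t, 0, 0, 0⟩, ⟨f, 0, 0, 0, 0, 0⟩, ?_⟩
    ext1 <;> simp [hf, mul_comm]

/-- The maximal homogeneous ideal. -/
def mm : Ideal (Q K) := Ideal.span {e, a, b, c, d}

lemma mem_mm (x : Q K) : x ∈ (mm : Ideal (Q K)) ↔ c0 x.p = 0 := by
  rw [mm, mem_span_five]
  constructor
  · rintro ⟨f, g, h, k, l, rfl⟩
    simp
  · intro h1
    obtain ⟨f, g, h, -, -⟩ := exists_decomp x.p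
    rw [h1] at h
    simp only [map_zero, zero_add] at h
    refine ⟨sc x.w, sc x.u, ⟨C (C x.v), x.s, -x.t, 0, 0, 0⟩, ⟨f, 0, 0, 0, 0, 0⟩,
      ⟨g, 0, 0, 0, 0, 0⟩, ?_⟩
    ext1 <;> simp [h, mul_comm]

/-- The Koszul filtration. -/
def Fil (I : Ideal (Q K)) : Prop :=
  I = ⊥ ∨ I = Ideal.span {e} ∨ I = Ideal.span {e, b} ∨ I = Ideal.span {e, d} ∨
    I = Ideal.span {e, b, d} ∨ I = Ideal.span {e, d, b - c} ∨ I = Ideal.span {e, a, b} ∨
    I = Ideal.span {e, a, b, c} ∨ I = mm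

lemma mem_colon (N : Ideal (Q K)) (x r : Q K) :
    r ∈ Submodule.comap (LinearMap.toSpanSingleton (Q K) (Q K) x) N ↔ r * x ∈ N := Iff.rfl

lemma colon_e : Submodule.comap (LinearMap.toSpanSingleton (Q K) (Q K) e) (⊥ : Ideal (Q K)) =
    mm := by
  ext r
  rw [mem_colon, mem_mm, Ideal.mem_bot, ext_iff']
  simp

lemma colon_b : Submodule.comap (LinearMap.toSpanSingleton (Q K) (Q K) b)
    (Ideal.span {e} : Ideal (Q K)) = Ideal.span {e, d, b - c} := by
  ext r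
  rw [mem_colon, mem_dbc, mem_e]
  simp
  intro _ _
  constructor
  · intro h
    linear_combination -h
  · intro h
    linear_combination -h

lemma colon_d : Submodule.comap (LinearMap.toSpanSingleton (Q K) (Q K) d)
    (Ideal.span {e} : Ideal (Q K)) = Ideal.span {e, b} := by
  ext r
  rw [mem_colon, mem_b, mem_e]
  simp

lemma colon_bd : Submodule.comap (LinearMap.toSpanSingleton (Q K) (Q K) d)
    (Ideal.span {e, b} : Ideal (Q K)) = Ideal.span {e, a, b} := by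
  ext r
  rw [mem_colon, mem_b, mem_ab]
  simp

lemma colon_dbc : Submodule.comap (LinearMap.toSpanSingleton (Q K) (Q K) (b - c))
    (Ideal.span {e, d} : Ideal (Q K)) = Ideal.span {e, b, d} := by
  ext r
  rw [mem_colon, mem_d, mem_bd]
  simp only [mul_p, sub_p, b_p, c_p, zero_sub, mul_u, sub_u, b_u, c_u, sub_self, mul_zero,
    c0_neg, c0_CX, neg_zero, add_zero, mul_v, sub_v, b_v, c_v, sub_zero, mul_one,
    mul_s, sub_s, b_s, c_s, mul_neg, coeff_neg, neg_eq_zero, mul_coeff_zero, coeff_C_zero,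
    zero_add, mul_eq_zero, X_ne_zero, or_false, true_and]
  constructor
  · rintro ⟨h1, h2, h3⟩
    exact ⟨h1, h3⟩
  · rintro ⟨h1, h3⟩
    exact ⟨h1, by simp [c0, h1], h3⟩

lemma colon_ab : Submodule.comap (LinearMap.toSpanSingleton (Q K) (Q K) a)
    (Ideal.span {e, b} : Ideal (Q K)) = mm := by
  ext r
  rw [mem_colon, mem_b, mem_mm]
  simp

lemma colon_abc : Submodule.comap (LinearMap.toSpanSingleton (Q K) (Q K) c)
    (Ideal.span {e, a, b} : Ideal (Q K)) = Ideal.span {e, a, b} := by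
  ext r
  rw [mem_colon, mem_ab, mem_ab]
  simp

lemma colon_abcd : Submodule.comap (LinearMap.toSpanSingleton (Q K) (Q K) d)
    (Ideal.span {e, a, b, c} : Ideal (Q K)) = Ideal.span {e, a, b, c} := by
  ext r
  rw [mem_colon, mem_abc, mem_abc]
  simp only [mul_p, d_p]
  rw [C_dvd_iff_dvd_coeff, C_dvd_iff_dvd_coeff]
  constructor
  · intro h i
    have := h (i + 1)
    rwa [coeff_mul_X] at this
  · intro h i
    cases i with
    | zero => simp
    | succ i => rw [coeff_mul_X]; exact h i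

/-- The ideals of the filtration have linear quotients. -/
theorem fil_lf {L : Q K → Prop} (he : L e) (ha : L a) (hb : L b) (hc : L c) (hd : L d)
    (hbc : L (b - c)) (I : Ideal (Q K)) (hI : Fil I) : LF Fil L I := by
  have Fe : Fil (Ideal.span {e} : Ideal (Q K)) := Or.inr (Or.inl rfl)
  have Fb : Fil (Ideal.span {e, b} : Ideal (Q K)) := Or.inr (Or.inr (Or.inl rfl))
  have Fd : Fil (Ideal.span {e, d} : Ideal (Q K)) := Or.inr (Or.inr (Or.inr (Or.inl rfl)))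
  have Fbd : Fil (Ideal.span {e, b, d} : Ideal (Q K)) :=
    Or.inr (Or.inr (Or.inr (Or.inr (Or.inl rfl))))
  have Fdbc : Fil (Ideal.span {e, d, b - c} : Ideal (Q K)) :=
    Or.inr (Or.inr (Or.inr (Or.inr (Or.inr (Or.inl rfl)))))
  have Fab : Fil (Ideal.span {e, a, b} : Ideal (Q K)) :=
    Or.inr (Or.inr (Or.inr (Or.inr (Or.inr (Or.inr (Or.inl rfl))))))
  have Fabc : Fil (Ideal.span {e, a, b, c} : Ideal (Q K)) :=
    Or.inr (Or.inr (Or.inr (Or.inr (Or.inr (Or.inr (Or.inr (Or.inl rfl)))))))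
  have Fm : Fil (mm : Ideal (Q K)) :=
    Or.inr (Or.inr (Or.inr (Or.inr (Or.inr (Or.inr (Or.inr (Or.inr rfl)))))))
  have Le : LF Fil L (Ideal.span {e} : Ideal (Q K)) := by
    have := LF.step (F := Fil) (P := L) (⊥ : Ideal (Q K)) e LF.bot he (by rw [colon_e]; exact Fm)
    rwa [bot_sup_eq] at this
  have Lb : LF Fil L (Ideal.span {e, b} : Ideal (Q K)) := by
    have := LF.step (F := Fil) (P := L) _ b Le hb (by rw [colon_b]; exact Fdbc)
    rw [Ideal.span_insert]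
    exact this
  have Ld : LF Fil L (Ideal.span {e, d} : Ideal (Q K)) := by
    have := LF.step (F := Fil) (P := L) _ d Le hd (by rw [colon_d]; exact Fb)
    rw [Ideal.span_insert]
    exact this
  have Lbd : LF Fil L (Ideal.span {e, b, d} : Ideal (Q K)) := by
    have := LF.step (F := Fil) (P := L) _ d Lb hd (by rw [colon_bd]; exact Fab)
    have e' : (Ideal.span {e, b, d} : Ideal (Q K)) = Ideal.span {e, b} ⊔ Ideal.span {d} := by
      rw [Ideal.span_insert, Ideal.span_insert, Ideal.span_insert, sup_assoc]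
    rw [e']
    exact this
  have Ldbc : LF Fil L (Ideal.span {e, d, b - c} : Ideal (Q K)) := by
    have := LF.step (F := Fil) (P := L) _ (b - c) Ld hbc (by rw [colon_dbc]; exact Fbd)
    have e' : (Ideal.span {e, d, b - c} : Ideal (Q K)) =
        Ideal.span {e, d} ⊔ Ideal.span {b - c} := by
      rw [Ideal.span_insert, Ideal.span_insert, Ideal.span_insert, sup_assoc]
    rw [e']
    exact this
  have Lab : LF Fil L (Ideal.span {e, a, b} : Ideal (Q K)) := by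
    have := LF.step (F := Fil) (P := L) _ a Lb ha (by rw [colon_ab]; exact Fm)
    have e' : (Ideal.span {e, a, b} : Ideal (Q K)) = Ideal.span {e, b} ⊔ Ideal.span {a} := by
      rw [Ideal.span_insert, Ideal.span_insert, Ideal.span_insert, sup_assoc,
        sup_comm (Ideal.span {a})]
    rw [e']
    exact this
  have Labc : LF Fil L (Ideal.span {e, a, b, c} : Ideal (Q K)) := by
    have := LF.step (F := Fil) (P := L) _ c Lab hc (by rw [colon_abc]; exact Fab)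
    have e' : (Ideal.span {e, a, b, c} : Ideal (Q K)) =
        Ideal.span {e, a, b} ⊔ Ideal.span {c} := by
      simp only [Ideal.span_insert, sup_assoc]
    rw [e']
    exact this
  have Lm : LF Fil L (mm : Ideal (Q K)) := by
    have := LF.step (F := Fil) (P := L) _ d Labc hd (by rw [colon_abcd]; exact Fabc)
    have e' : (mm : Ideal (Q K)) = Ideal.span {e, a, b, c} ⊔ Ideal.span {d} := by
      rw [mm]
      simp only [Ideal.span_insert, sup_assoc]
    rw [e']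
    exact this
  rcases hI with rfl | rfl | rfl | rfl | rfl | rfl | rfl | rfl | rfl
  · exact LF.bot
  · exact Le
  · exact Lb
  · exact Ld
  · exact Lbd
  · exact Ldbc
  · exact Lab
  · exact Labc
  · exact Lm

end Q

end Pool.Agent.KS6_52.KB

end
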