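import Pool.Agent.KS6_52.KB.Vanish
import Pool.Graph.R_pool_sql_team_seeded_ab47071d.TH884.KF.Series

/-!
The numerator of the Hilbert series of a quadratic monomial algebra in terms of a vertex cover.
-/

set_option autoImplicit false

noncomputable section

namespace Pool.Agent.KS6_52.KB

open Pool.Agent.TH884.KF (OkS States mem_States KP gP)

variable {m : ℕ}

lemma exists_pair {e : Fin m →₀ ℕ} (he : ∑ i, e i = 2) :
    ∃ p q : Fin m, e = Finsupp.single p 1 + Finsupp.single q 1 := by
  have h1 : Multiset.card (Finsupp.toMultiset e) = 2 := by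
    rw [Finsupp.card_toMultiset, Finsupp.sum_fintype _ _ (fun _ => rfl)]
    exact he
  obtain ⟨p, q, h⟩ := Multiset.card_eq_two.1 h1
  refine ⟨p, q, ?_⟩
  have h2 := (Finsupp.toMultiset_eq_iff.1 h)
  rw [h2, Multiset.insert_eq_cons, ← Multiset.singleton_add, Multiset.toFinsupp_add,
    Multiset.toFinsupp_singleton, Multiset.toFinsupp_singleton]

lemma okS_adj {E : Set (Fin m →₀ ℕ)} (hE : ∀ e ∈ E, ∑ i, e i = 2) (s : Fin m → Fin 3) :
    OkS E s ↔ ∀ p q, Adj E p q → (p ≠ q → s p = 0 ∨ s q = 0) ∧ (p = q → s p ≠ 2) := by
  constructor
  · intro h p q hpq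
    obtain ⟨i, hi⟩ := h _ hpq
    rw [Finsupp.add_apply, Finsupp.single_apply, Finsupp.single_apply] at hi
    constructor
    · intro hne
      by_cases h1 : p = i
      · subst h1
        left
        rw [if_pos rfl, if_neg (fun h => hne h.symm)] at hi
        apply Fin.ext
        change (s p : ℕ) = 0
        omega
      · by_cases h2 : q = i
        · subst h2
          right
          rw [if_neg h1, if_pos rfl] at hi
          apply Fin.ext
          change (s q : ℕ) = 0
          omega
        · rw [if_neg h1, if_neg h2] at hi
          omega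
    · intro heq hs
      subst heq
      by_cases h1 : p = i
      · subst h1
        rw [if_pos rfl, hs] at hi
        exact absurd hi (by decide)
      · rw [if_neg h1] at hi
        omega
  · intro h e he
    obtain ⟨p, q, rfl⟩ := exists_pair (hE e he)
    have h1 := h p q he
    by_cases hpq : p = q
    · subst hpq
      refine ⟨p, ?_⟩
      rw [Finsupp.add_apply, Finsupp.single_apply, if_pos rfl]
      have h2 := h1.2 rfl
      have h3 := (s p).isLt
      have h4 : (s p : ℕ) ≠ 2 := fun h' => h2 (Fin.ext h')
      omega
    · rcases h1.1 hpq with h0 | h0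
      · refine ⟨p, ?_⟩
        rw [Finsupp.add_apply, Finsupp.single_apply, Finsupp.single_apply, if_pos rfl, h0]
        change 0 < _
        omega
      · refine ⟨q, ?_⟩
        rw [Finsupp.add_apply, Finsupp.single_apply, Finsupp.single_apply, if_pos rfl, h0]
        change 0 < _
        omega

open Classical in
/-- The neighbours outside of `C` of the elements of `T`. -/
def Nb (E : Set (Fin m →₀ ℕ)) (C T : Finset (Fin m)) : Finset (Fin m) :=
  Finset.univ.filter fun i => i ∉ C ∧ ∃ j ∈ T, Adj E j i

open Classical in
/-- The weight of a variable. -/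
def vv (E : Set (Fin m →₀ ℕ)) (i : Fin m) : Polynomial ℤ :=
  if Adj E i i then Polynomial.X * (1 - Polynomial.X) else Polynomial.X

open Classical in
/-- The possible values of the states. -/
def tt (E : Set (Fin m →₀ ℕ)) (C T : Finset (Fin m)) (i : Fin m) : Finset (Fin 3) :=
  if i ∈ T then (if Adj E i i then {1} else {1, 2})
  else if i ∈ C ∨ ∃ j ∈ T, Adj E j i then {0} else Finset.univ

lemma fin3_cases (t : Fin 3) : t = 0 ∨ t = 1 ∨ t = 2 := by
  fin_cases t <;> simp

lemma sum_tt (E : Set (Fin m →₀ ℕ)) (C T : Finset (Fin m)) (i : Fin m) :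
    ∑ x ∈ tt E C T i, gP x = by
      classical exact if i ∈ T then vv E i
      else if i ∈ C ∨ ∃ j ∈ T, Adj E j i then (1 - Polynomial.X) else 1 := by
  classical
  unfold tt vv
  split_ifs with h1 h2 h3
  · simp [gP]
  · rw [Finset.sum_pair (by decide)]
    simp [gP]
    ring
  · simp [gP]
  · simp [gP, Fin.sum_univ_three]
    ring

open Classical in
/-- The numerator of the Hilbert series in terms of a cover `C`. -/
theorem KP_eq {E : Set (Fin m →₀ ℕ)} (hE : ∀ e ∈ E, ∑ i, e i = 2) (C : Finset (Fin m))
    (hC : ∀ p q, Adj E p q → p ∈ C ∨ q ∈ C) :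
    KP E = ∑ T ∈ C.powerset, if (∀ i ∈ T, ∀ j ∈ T, i ≠ j → ¬ Adj E i j) then
      (∏ i ∈ T, vv E i) * (1 - Polynomial.X) ^ ((C \ T).card + (Nb E C T).card) else 0 := by
  have hmaps : ∀ s ∈ States E, C.filter (fun i => s i ≠ 0) ∈ C.powerset := fun s _ =>
    Finset.mem_powerset.2 (Finset.filter_subset _ _)
  rw [KP, ← Finset.sum_fiberwise_of_maps_to hmaps]
  refine Finset.sum_congr rfl fun T hT => ?_
  have hTC : T ⊆ C := Finset.mem_powerset.1 hT
  have key : (States E).filter (fun s => C.filter (fun i => s i ≠ 0) = T) =
      if (∀ i ∈ T, ∀ j ∈ T, i ≠ j → ¬ Adj E i j) then Fintype.piFinset (tt E C T) else ∅ := by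
    ext s
    rw [Finset.mem_filter, mem_States, okS_adj hE]
    by_cases hI : ∀ i ∈ T, ∀ j ∈ T, i ≠ j → ¬ Adj E i j
    · rw [if_pos hI, Fintype.mem_piFinset]
      constructor
      · rintro ⟨hok, rfl⟩ i
        unfold tt
        split_ifs with h1 h2 h3
        · have h4 := (Finset.mem_filter.1 h1).2
          have h5 := (hok i i h2).2 rfl
          rw [Finset.mem_singleton]
          rcases fin3_cases (s i) with h | h | h
          · exact absurd h h4
          · exact h
          · exact absurd h h5
        · have h4 := (Finset.mem_filter.1 h1).2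
          rw [Finset.mem_insert, Finset.mem_singleton]
          rcases fin3_cases (s i) with h | h | h
          · exact absurd h h4
          · exact Or.inl h
          · exact Or.inr h
        · rw [Finset.mem_singleton]
          rcases h3 with h3 | ⟨j, hj, hji⟩
          · by_contra h
            exact h1 (Finset.mem_filter.2 ⟨h3, h⟩)
          · have hne : j ≠ i := by
              rintro rfl
              exact h1 hj
            rcases (hok j i hji).1 hne with h | h
            · exact absurd h (Finset.mem_filter.1 hj).2
            · exact h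
        · exact Finset.mem_univ _
      · intro hs
        have e1 : ∀ i ∈ T, s i ≠ 0 := by
          intro i hi h0
          have := hs i
          unfold tt at this
          rw [if_pos hi, h0] at this
          split_ifs at this <;> simp at this
        have e2 : ∀ i ∈ C, i ∉ T → s i = 0 := by
          intro i hi hiT
          have := hs i
          unfold tt at this
          rw [if_neg hiT, if_pos (Or.inl hi), Finset.mem_singleton] at this
          exact this
        have e3 : ∀ i, i ∉ T → (∃ j ∈ T, Adj E j i) → s i = 0 := by
          intro i hiT hi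
          have := hs i
          unfold tt at this
          rw [if_neg hiT, if_pos (Or.inr hi), Finset.mem_singleton] at this
          exact this
        have e4 : ∀ p q, Adj E p q → p ≠ q → p ∈ C → s p = 0 ∨ s q = 0 := by
          intro p q hpq hne hp
          by_cases hpT : p ∈ T
          · by_cases hqT : q ∈ T
            · exact absurd hpq (hI p hpT q hqT hne)
            · exact Or.inr (e3 q hqT ⟨p, hpT, hpq⟩)
          · exact Or.inl (e2 p hp hpT)
        refine ⟨fun p q hpq => ⟨fun hne => ?_, ?_⟩, ?_⟩
        · rcases hC p q hpq with h | h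
          · exact e4 p q hpq hne h
          · exact (e4 q p hpq.symm hne.symm h).symm
        · rintro rfl h2
          have hp : p ∈ C := by
            rcases hC p p hpq with h | h <;> exact h
          by_cases hpT : p ∈ T
          · have := hs p
            unfold tt at this
            rw [if_pos hpT, if_pos hpq, Finset.mem_singleton, h2] at this
            exact absurd this (by decide)
          · rw [e2 p hp hpT] at h2
            exact absurd h2 (by decide)
        · ext i
          rw [Finset.mem_filter]
          constructor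
          · rintro ⟨h1, h2⟩
            by_contra h
            exact h2 (e2 i h1 h)
          · intro h
            exact ⟨hTC h, e1 i h⟩
    · rw [if_neg hI]
      constructor
      · rintro ⟨hok, rfl⟩
        exfalso
        apply hI
        intro i hi j hj hne hadj
        rcases (hok i j hadj).1 hne with h | h
        · exact (Finset.mem_filter.1 hi).2 h
        · exact (Finset.mem_filter.1 hj).2 h
      · intro h
        exact absurd h (Finset.notMem_empty _)
  rw [key]
  by_cases hI : ∀ i ∈ T, ∀ j ∈ T, i ≠ j → ¬ Adj E i j
  · rw [if_pos hI, if_pos hI, ← Finset.prod_univ_sum]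
    have h1 : ∀ i ∈ (Finset.univ : Finset (Fin m)), ∑ x ∈ tt E C T i, gP x =
        if i ∈ T then vv E i
        else if i ∈ C ∨ ∃ j ∈ T, Adj E j i then (1 - Polynomial.X) else 1 := by
      intro i _
      rw [sum_tt]
    rw [Finset.prod_congr rfl h1, Finset.prod_ite, Finset.prod_ite, Finset.prod_const,
      Finset.prod_const_one, mul_one]
    congr 1
    · refine Finset.prod_congr ?_ fun _ _ => rfl
      ext i
      simp
    · congr 1
      rw [← Finset.card_union_of_disjoint]
      · congr 1
        ext i
        simp only [Finset.mem_filter, Finset.mem_univ, true_and, Finset.mem_union,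
          Finset.mem_sdiff, Nb]
        constructor
        · rintro ⟨h1, h2⟩
          by_cases hi : i ∈ C
          · exact Or.inl ⟨hi, h1⟩
          · exact Or.inr ⟨hi, h2.resolve_left hi⟩
        · rintro (⟨h1, h2⟩ | ⟨h1, h2⟩)
          · exact ⟨h2, Or.inl h1⟩
          · exact ⟨fun h => h1 (hTC h), Or.inr h2⟩
      · rw [Finset.disjoint_left]
        intro i h1 h2
        exact (Finset.mem_filter.1 h2).2.1 (Finset.mem_sdiff.1 h1).1
  · rw [if_neg hI, if_neg hI, Finset.sum_empty]

/-- If the numerator is divisible by `(1 - X) ^ 3` exactly, then three variables meet all the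
monomials of `E`. -/
lemma exists_cover3 {E : Set (Fin m →₀ ℕ)} (hE : ∀ e ∈ E, ∑ i, e i = 2)
    {h : Polynomial ℤ} (h1 : h.eval 1 ≠ 0) (hm : 3 ≤ m)
    (hK : KP E = (1 - Polynomial.X) ^ 3 * h) :
    ∃ C : Finset (Fin m), C.card = 3 ∧ ∀ p q, Adj E p q → p ∈ C ∨ q ∈ C := by
  classical
  by_contra hc
  push Not at hc
  have hdvd : (1 - Polynomial.X) ^ 4 ∣ KP E := by
    refine Finset.dvd_sum fun s hs => ?_
    have hs' := (okS_adj hE s).1 (mem_States.1 hs)
    set T : Finset (Fin m) := Finset.univ.filter fun i => s i ≠ 2 with hT
    have hcard : 4 ≤ T.card := by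
      by_contra hlt
      obtain ⟨U, hTU, hU⟩ := Finset.exists_superset_card_eq (s := T) (n := 3) (by omega)
        (by rw [Fintype.card_fin]; exact hm)
      obtain ⟨p, q, hpq, hp, hq⟩ := hc U hU
      have hp2 : s p = 2 := by
        by_contra h
        exact hp (hTU (Finset.mem_filter.2 ⟨Finset.mem_univ _, h⟩))
      have hq2 : s q = 2 := by
        by_contra h
        exact hq (hTU (Finset.mem_filter.2 ⟨Finset.mem_univ _, h⟩))
      by_cases hne : p = q
      · exact (hs' p q hpq).2 hne hp2
      · rcases (hs' p q hpq).1 hne with h | h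
        · rw [hp2] at h
          exact absurd h (by decide)
        · rw [hq2] at h
          exact absurd h (by decide)
    have h3 : ∏ i ∈ T, (1 - Polynomial.X : Polynomial ℤ) ∣ ∏ i ∈ T, gP (s i) := by
      refine Finset.prod_dvd_prod_of_dvd _ _ fun i hi => ?_
      rw [hT, Finset.mem_filter] at hi
      rcases fin3_cases (s i) with h4 | h4 | h4
      · rw [h4]
        exact dvd_rfl
      · rw [h4]
        exact Dvd.intro_left _ rfl
      · exact absurd h4 hi.2
    rw [Finset.prod_const] at h3
    refine dvd_trans (pow_dvd_pow _ hcard) (dvd_trans h3 ?_)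
    exact Finset.prod_dvd_prod_of_subset _ _ _ (Finset.subset_univ T)
  rw [hK] at hdvd
  obtain ⟨q, hq⟩ := hdvd
  have hne : (1 - Polynomial.X : Polynomial ℤ) ^ 3 ≠ 0 := by
    apply pow_ne_zero
    intro h0
    have := congrArg (Polynomial.eval 0) h0
    simp at this
  have h5 : h = (1 - Polynomial.X) * q := by
    apply mul_left_cancel₀ hne
    rw [hq]
    ring
  apply h1
  rw [h5]
  simp

end Pool.Agent.KS6_52.KB

end
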