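import Pool.Agent.KS6_52.KB.Kform
import Pool.Agent.KS6_52.KB.Check
import Pool.Agent.KS6_52.KB.Hilb

/-!
The structure of the quadratic monomial algebras with the numerator of the example.
-/

set_option autoImplicit false

noncomputable section

namespace Pool.Agent.KS6_52.KB

open Pool.Agent.TH884.KF (KP)

variable {m : ℕ}

lemma coeff_pow01 (e : ℕ) : ((1 - Polynomial.X : Polynomial ℤ) ^ e).coeff 0 = 1 ∧
    ((1 - Polynomial.X : Polynomial ℤ) ^ e).coeff 1 = -(e : ℤ) := by
  induction e with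
  | zero =>
    constructor
    · simp
    · rw [pow_zero, Polynomial.coeff_one]
      simp
  | succ e ih =>
    rw [pow_succ, mul_sub, mul_one, Polynomial.coeff_sub, Polynomial.coeff_sub,
      Polynomial.mul_coeff_zero, Polynomial.coeff_mul_X, ih.1, ih.2]
    constructor
    · simp
    · push_cast
      ring

lemma coeff_two_three : ((1 - Polynomial.X : Polynomial ℤ) ^ 3).coeff 2 = 3 := by
  have e : (1 - Polynomial.X : Polynomial ℤ) ^ 3 = Polynomial.C 1 - Polynomial.C 3 * Polynomial.X +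
      Polynomial.C 3 * Polynomial.X ^ 2 - Polynomial.X ^ 3 := by
    have e3 : (Polynomial.C 3 : Polynomial ℤ) = 3 := rfl
    have e1 : (Polynomial.C 1 : Polynomial ℤ) = 1 := rfl
    rw [e3, e1]
    ring
  rw [e]
  simp only [Polynomial.coeff_add, Polynomial.coeff_sub, Polynomial.coeff_C_mul,
    Polynomial.coeff_X_pow, Polynomial.coeff_X, Polynomial.coeff_C]
  norm_num

lemma coeff_two_K : ((1 - Polynomial.X : Polynomial ℤ) ^ 3 * hpoly).coeff 2 = -10 := by
  have e : (1 - Polynomial.X : Polynomial ℤ) ^ 3 * hpoly = Polynomial.C 1 +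
      Polynomial.C (-10) * Polynomial.X ^ 2 + Polynomial.C 19 * Polynomial.X ^ 3 +
      Polynomial.C (-10) * Polynomial.X ^ 4 + Polynomial.C (-5) * Polynomial.X ^ 5 +
      Polynomial.C 7 * Polynomial.X ^ 6 + Polynomial.C (-2) * Polynomial.X ^ 7 := by
    rw [hpoly]
    simp only [map_neg, map_one, map_ofNat]
    ring
  rw [e]
  simp only [Polynomial.coeff_add, Polynomial.coeff_C_mul,
    Polynomial.coeff_X_pow, Polynomial.coeff_C]
  norm_num

lemma eval_K : ((1 - Polynomial.X : Polynomial ℤ) ^ 3 * hpoly).eval (-2) = 513 := by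
  simp [hpoly]

open Classical in
/-- The exponent of `1 - X`. -/
def ex (E : Set (Fin m →₀ ℕ)) (C T : Finset (Fin m)) : ℕ :=
  (C \ T).card + (Nb E C T).card + (T.filter fun i => Adj E i i).card

open Classical in
/-- The numerator in terms of a cover, second form. -/
theorem KP_eq' {E : Set (Fin m →₀ ℕ)} (hE : ∀ e ∈ E, ∑ i, e i = 2) (C : Finset (Fin m))
    (hC : ∀ p q, Adj E p q → p ∈ C ∨ q ∈ C) :
    KP E = ∑ T ∈ C.powerset, if (∀ i ∈ T, ∀ j ∈ T, i ≠ j → ¬ Adj E i j) then
      Polynomial.X ^ T.card * (1 - Polynomial.X) ^ (ex E C T) else 0 := by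
  rw [KP_eq hE C hC]
  refine Finset.sum_congr rfl fun T _ => ?_
  split_ifs with h
  · have h1 : ∏ i ∈ T, vv E i = Polynomial.X ^ T.card *
        (1 - Polynomial.X) ^ (T.filter fun i => Adj E i i).card := by
      have h2 : ∀ i ∈ T, vv E i = Polynomial.X *
          (if Adj E i i then (1 - Polynomial.X) else 1) := by
        intro i _
        unfold vv
        split_ifs <;> simp
      rw [Finset.prod_congr rfl h2, Finset.prod_mul_distrib, Finset.prod_const, Finset.prod_ite,
        Finset.prod_const, Finset.prod_const_one, mul_one]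
    rw [h1, ex, pow_add _ (_ + _) _]
    ring
  · rfl

/-- The terms of the coefficient of `X ^ 2`. -/
lemma coeff_two_term (k e : ℕ) : ((Polynomial.X : Polynomial ℤ) ^ k *
    (1 - Polynomial.X) ^ e).coeff 2 =
    if k = 0 then ((1 - Polynomial.X : Polynomial ℤ) ^ e).coeff 2 else
      if k = 1 then -(e : ℤ) else if k = 2 then 1 else 0 := by
  rw [Polynomial.coeff_X_pow_mul']
  rcases k with _ | _ | _ | k
  · simp
  · rw [if_pos (by norm_num), if_neg (by norm_num), if_pos rfl]
    exact (coeff_pow01 e).2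
  · rw [if_pos (by norm_num), if_neg (by norm_num), if_neg (by norm_num), if_pos rfl]
    exact (coeff_pow01 e).1
  · rw [if_neg (by omega), if_neg (by omega), if_neg (by omega), if_neg (by omega)]

open Classical in
/-- The number of variables outside of `C` with a property. -/
def cnt (C : Finset (Fin m)) (P : Fin m → Prop) : ℕ :=
  (Finset.univ.filter fun i => i ∉ C ∧ P i).card

lemma cnt_congr {C : Finset (Fin m)} {P Q : Fin m → Prop} (h : ∀ i, P i ↔ Q i) :
    cnt C P = cnt C Q := by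
  unfold cnt
  congr 1
  ext i
  simp [h i]

lemma cnt_eq (C : Finset (Fin m)) (P : Fin m → Prop) :
    cnt C P = ∑ i, (by classical exact if i ∉ C ∧ P i then 1 else 0) := by
  classical
  unfold cnt
  rw [Finset.card_filter]

lemma card_Nb (E : Set (Fin m →₀ ℕ)) (C T : Finset (Fin m)) :
    (Nb E C T).card = cnt C (fun i => ∃ j ∈ T, Adj E j i) := by
  classical
  unfold Nb cnt
  congr

lemma cnt_one (C : Finset (Fin m)) (A B D : Fin m → Prop) :
    cnt C A = cnt C (fun i => A i ∧ ¬ B i ∧ ¬ D i) + cnt C (fun i => A i ∧ B i ∧ ¬ D i) +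
      cnt C (fun i => A i ∧ ¬ B i ∧ D i) + cnt C (fun i => A i ∧ B i ∧ D i) := by
  classical
  simp only [cnt_eq, ← Finset.sum_add_distrib]
  refine Finset.sum_congr rfl fun i _ => ?_
  by_cases h : i ∈ C <;> by_cases a : A i <;> by_cases b : B i <;> by_cases d : D i <;>
    simp [h, a, b, d]

lemma cnt_two (C : Finset (Fin m)) (A B D : Fin m → Prop) :
    cnt C (fun i => A i ∨ B i) = cnt C (fun i => A i ∧ ¬ B i ∧ ¬ D i) +
      cnt C (fun i => ¬ A i ∧ B i ∧ ¬ D i) + cnt C (fun i => A i ∧ B i ∧ ¬ D i) +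
      cnt C (fun i => A i ∧ ¬ B i ∧ D i) + cnt C (fun i => ¬ A i ∧ B i ∧ D i) +
      cnt C (fun i => A i ∧ B i ∧ D i) := by
  classical
  simp only [cnt_eq, ← Finset.sum_add_distrib]
  refine Finset.sum_congr rfl fun i _ => ?_
  by_cases h : i ∈ C <;> by_cases a : A i <;> by_cases b : B i <;> by_cases d : D i <;>
    simp [h, a, b, d]

lemma cnt_three (C : Finset (Fin m)) (A B D : Fin m → Prop) :
    cnt C (fun i => A i ∨ B i ∨ D i) = cnt C (fun i => A i ∧ ¬ B i ∧ ¬ D i) +
      cnt C (fun i => ¬ A i ∧ B i ∧ ¬ D i) + cnt C (fun i => ¬ A i ∧ ¬ B i ∧ D i) +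
      cnt C (fun i => A i ∧ B i ∧ ¬ D i) +
      cnt C (fun i => A i ∧ ¬ B i ∧ D i) + cnt C (fun i => ¬ A i ∧ B i ∧ D i) +
      cnt C (fun i => A i ∧ B i ∧ D i) := by
  classical
  simp only [cnt_eq, ← Finset.sum_add_distrib]
  refine Finset.sum_congr rfl fun i _ => ?_
  by_cases h : i ∈ C <;> by_cases a : A i <;> by_cases b : B i <;> by_cases d : D i <;>
    simp [h, a, b, d]

lemma cnt_and (C : Finset (Fin m)) (A B D : Fin m → Prop) :
    cnt C (fun i => A i ∧ B i) = cnt C (fun i => A i ∧ B i ∧ ¬ D i) +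
      cnt C (fun i => A i ∧ B i ∧ D i) := by
  classical
  simp only [cnt_eq, ← Finset.sum_add_distrib]
  refine Finset.sum_congr rfl fun i _ => ?_
  by_cases h : i ∈ C <;> by_cases a : A i <;> by_cases b : B i <;> by_cases d : D i <;>
    simp [h, a, b, d]

open Classical in
lemma ex_eq (E : Set (Fin m →₀ ℕ)) {C T : Finset (Fin m)} (hC : C.card = 3) (hT : T ⊆ C) :
    ex E C T = (3 - T.card) + cnt C (fun i => ∃ j ∈ T, Adj E j i) +
      ∑ i ∈ T, (if Adj E i i then 1 else 0) := by
  rw [ex, card_Nb, Finset.card_sdiff_of_subset hT, hC, Finset.card_filter]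

lemma ind_two {E : Set (Fin m →₀ ℕ)} {a b : Fin m} (hab : a ≠ b) :
    (∀ i ∈ ({a, b} : Finset (Fin m)), ∀ j ∈ ({a, b} : Finset (Fin m)), i ≠ j → ¬ Adj E i j) ↔
      ¬ Adj E a b := by
  constructor
  · intro h
    exact h a (by simp) b (by simp) hab
  · intro h i hi j hj hne hadj
    simp only [Finset.mem_insert, Finset.mem_singleton] at hi hj
    rcases hi with rfl | rfl <;> rcases hj with rfl | rfl
    · exact hne rfl
    · exact h hadj
    · exact h hadj.symm
    · exact hne rfl

lemma ind_three {E : Set (Fin m →₀ ℕ)} {a b c : Fin m} (hab : a ≠ b) (hac : a ≠ c) (hbc : b ≠ c) :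
    (∀ i ∈ ({a, b, c} : Finset (Fin m)), ∀ j ∈ ({a, b, c} : Finset (Fin m)),
      i ≠ j → ¬ Adj E i j) ↔ ¬ Adj E a b ∧ ¬ Adj E a c ∧ ¬ Adj E b c := by
  constructor
  · intro h
    exact ⟨h a (by simp) b (by simp) hab, h a (by simp) c (by simp) hac,
      h b (by simp) c (by simp) hbc⟩
  · rintro ⟨h1, h2, h3⟩ i hi j hj hne hadj
    simp only [Finset.mem_insert, Finset.mem_singleton] at hi hj
    rcases hi with rfl | rfl | rfl <;> rcases hj with rfl | rfl | rfl
    · exact hne rfl
    · exact h1 hadj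
    · exact h2 hadj
    · exact h1 hadj.symm
    · exact hne rfl
    · exact h3 hadj
    · exact h2 hadj.symm
    · exact h3 hadj.symm
    · exact hne rfl

open Classical in
/-- The indicator of the relation. -/
def ee (E : Set (Fin m →₀ ℕ)) (a b : Fin m) : ℕ := if Adj E a b then 1 else 0

lemma ee_le (E : Set (Fin m →₀ ℕ)) (a b : Fin m) : ee E a b ≤ 1 := by
  classical
  unfold ee
  split_ifs <;> simp

lemma ee_eq_zero {E : Set (Fin m →₀ ℕ)} {a b : Fin m} : ee E a b = 0 ↔ ¬ Adj E a b := by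
  classical
  unfold ee
  split_ifs with h <;> simp [h]

open Classical in
/-- The numerator for a cover with three elements. -/
theorem KP_three {E : Set (Fin m →₀ ℕ)} (hE : ∀ e ∈ E, ∑ i, e i = 2) {a b c : Fin m}
    (hab : a ≠ b) (hac : a ≠ c) (hbc : b ≠ c)
    (hC : ∀ p q, Adj E p q → p ∈ ({a, b, c} : Finset (Fin m)) ∨
      q ∈ ({a, b, c} : Finset (Fin m))) :
    KP E = (1 - Polynomial.X) ^ 3 +
      Polynomial.X ^ 1 * (1 - Polynomial.X) ^
        (2 + (cnt {a, b, c} (fun i => Adj E a i) + ee E a a)) +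
      Polynomial.X ^ 1 * (1 - Polynomial.X) ^
        (2 + (cnt {a, b, c} (fun i => Adj E b i) + ee E b b)) +
      Polynomial.X ^ 1 * (1 - Polynomial.X) ^
        (2 + (cnt {a, b, c} (fun i => Adj E c i) + ee E c c)) +
      (if ee E a b = 0 then Polynomial.X ^ 2 * (1 - Polynomial.X) ^
        (1 + (cnt {a, b, c} (fun i => Adj E a i ∨ Adj E b i) + ee E a a + ee E b b)) else 0) +
      (if ee E a c = 0 then Polynomial.X ^ 2 * (1 - Polynomial.X) ^
        (1 + (cnt {a, b, c} (fun i => Adj E a i ∨ Adj E c i) + ee E a a + ee E c c)) else 0) +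
      (if ee E b c = 0 then Polynomial.X ^ 2 * (1 - Polynomial.X) ^
        (1 + (cnt {a, b, c} (fun i => Adj E b i ∨ Adj E c i) + ee E b b + ee E c c)) else 0) +
      (if ee E a b = 0 ∧ ee E a c = 0 ∧ ee E b c = 0 then
        Polynomial.X ^ 3 * (1 - Polynomial.X) ^
        (cnt {a, b, c} (fun i => Adj E a i ∨ Adj E b i ∨ Adj E c i) +
          ee E a a + ee E b b + ee E c c) else 0) := by
  have hcard : ({a, b, c} : Finset (Fin m)).card = 3 := Finset.card_eq_three.2
    ⟨a, b, c, hab, hac, hbc, rfl⟩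
  rw [KP_eq' hE _ hC]
  have hsum : ∀ F : Finset (Fin m) → Polynomial ℤ,
      ∑ T ∈ ({a, b, c} : Finset (Fin m)).powerset, F T =
        F ∅ + F {a} + F {b} + F {c} + F {a, b} + F {a, c} + F {b, c} + F {a, b, c} := by
    intro F
    have h1 : a ∉ ({b, c} : Finset (Fin m)) := by simp [hab, hac]
    have h2 : b ∉ ({c} : Finset (Fin m)) := by simp [hbc]
    have h3 : c ∉ (∅ : Finset (Fin m)) := by simp
    rw [Finset.sum_powerset_insert h1, Finset.sum_powerset_insert h2, Finset.sum_powerset_insert h2,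
      ← LawfulSingleton.insert_empty_eq c, Finset.sum_powerset_insert h3,
      Finset.sum_powerset_insert h3, Finset.sum_powerset_insert h3, Finset.sum_powerset_insert h3]
    simp only [Finset.powerset_empty, Finset.sum_singleton]
    simp only [LawfulSingleton.insert_empty_eq]
    ring
  rw [hsum]
  have i0 : ∀ i ∈ (∅ : Finset (Fin m)), ∀ j ∈ (∅ : Finset (Fin m)), i ≠ j → ¬ Adj E i j := by
    simp
  have i1 : ∀ x : Fin m, ∀ i ∈ ({x} : Finset (Fin m)), ∀ j ∈ ({x} : Finset (Fin m)),
      i ≠ j → ¬ Adj E i j := by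
    intro x i hi j hj hne
    rw [Finset.mem_singleton] at hi hj
    exact absurd (hi.trans hj.symm) hne
  have x0 : ex E {a, b, c} ∅ = 3 := by
    rw [ex_eq E hcard (by simp), cnt]
    simp
  have x1 : ∀ x ∈ ({a, b, c} : Finset (Fin m)), ex E {a, b, c} {x} =
      2 + (cnt {a, b, c} (fun i => Adj E x i) + ee E x x) := by
    intro x hx
    rw [ex_eq E hcard (by simpa using hx), Finset.card_singleton, Finset.sum_singleton,
      cnt_congr (Q := fun i => Adj E x i) (by simp), ee]
    omega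
  have x2 : ∀ x ∈ ({a, b, c} : Finset (Fin m)), ∀ y ∈ ({a, b, c} : Finset (Fin m)), x ≠ y →
      ex E {a, b, c} {x, y} =
      1 + (cnt {a, b, c} (fun i => Adj E x i ∨ Adj E y i) + ee E x x + ee E y y) := by
    intro x hx y hy hxy
    rw [ex_eq E hcard (Finset.insert_subset hx (Finset.singleton_subset_iff.2 hy)),
      Finset.card_pair hxy, Finset.sum_pair hxy,
      cnt_congr (Q := fun i => Adj E x i ∨ Adj E y i) (by simp), ee, ee]
    omega
  have x3 : ex E {a, b, c} {a, b, c} =
      (cnt {a, b, c} (fun i => Adj E a i ∨ Adj E b i ∨ Adj E c i) +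
        ee E a a + ee E b b + ee E c c) := by
    rw [ex_eq E hcard (Finset.Subset.refl _), hcard,
      Finset.sum_insert (by simp [hab, hac]), Finset.sum_pair hbc,
      cnt_congr (Q := fun i => Adj E a i ∨ Adj E b i ∨ Adj E c i) (by simp), ee, ee, ee]
    omega
  rw [if_pos i0, if_pos (i1 a), if_pos (i1 b), if_pos (i1 c), x0, x1 a (by simp), x1 b (by simp),
    x1 c (by simp), x2 a (by simp) b (by simp) hab, x2 a (by simp) c (by simp) hac,
    x2 b (by simp) c (by simp) hbc, x3, Finset.card_empty, Finset.card_singleton,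
    Finset.card_singleton, Finset.card_singleton, Finset.card_pair hab, Finset.card_pair hac,
    Finset.card_pair hbc, hcard, pow_zero, one_mul]
  simp only [ind_two hab, ind_two hac, ind_two hbc, ind_three hab hac hbc, ee_eq_zero]

end Pool.Agent.KS6_52.KB

end
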