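import Pool.Agent.KS6_52.KB.Struct

/-!
The structure of the quadratic monomial algebras with the numerator of the example, continued.
-/

set_option autoImplicit false

noncomputable section

namespace Pool.Agent.KS6_52.KB

open Pool.Agent.TH884.KF (KP)

variable {m : ℕ}

lemma cnt_oneB (C : Finset (Fin m)) (A B D : Fin m → Prop) :
    cnt C B = cnt C (fun i => ¬ A i ∧ B i ∧ ¬ D i) + cnt C (fun i => A i ∧ B i ∧ ¬ D i) +
      cnt C (fun i => ¬ A i ∧ B i ∧ D i) + cnt C (fun i => A i ∧ B i ∧ D i) := by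
  classical
  simp only [cnt_eq, ← Finset.sum_add_distrib]
  refine Finset.sum_congr rfl fun i _ => ?_
  by_cases h : i ∈ C <;> by_cases a : A i <;> by_cases b : B i <;> by_cases d : D i <;>
    simp [h, a, b, d]

lemma cnt_oneD (C : Finset (Fin m)) (A B D : Fin m → Prop) :
    cnt C D = cnt C (fun i => ¬ A i ∧ ¬ B i ∧ D i) + cnt C (fun i => A i ∧ ¬ B i ∧ D i) +
      cnt C (fun i => ¬ A i ∧ B i ∧ D i) + cnt C (fun i => A i ∧ B i ∧ D i) := by
  classical
  simp only [cnt_eq, ← Finset.sum_add_distrib]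
  refine Finset.sum_congr rfl fun i _ => ?_
  by_cases h : i ∈ C <;> by_cases a : A i <;> by_cases b : B i <;> by_cases d : D i <;>
    simp [h, a, b, d]

lemma cnt_twoAD (C : Finset (Fin m)) (A B D : Fin m → Prop) :
    cnt C (fun i => A i ∨ D i) = cnt C (fun i => A i ∧ ¬ B i ∧ ¬ D i) +
      cnt C (fun i => ¬ A i ∧ ¬ B i ∧ D i) + cnt C (fun i => A i ∧ B i ∧ ¬ D i) +
      cnt C (fun i => A i ∧ ¬ B i ∧ D i) + cnt C (fun i => ¬ A i ∧ B i ∧ D i) +
      cnt C (fun i => A i ∧ B i ∧ D i) := by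
  classical
  simp only [cnt_eq, ← Finset.sum_add_distrib]
  refine Finset.sum_congr rfl fun i _ => ?_
  by_cases h : i ∈ C <;> by_cases a : A i <;> by_cases b : B i <;> by_cases d : D i <;>
    simp [h, a, b, d]

lemma cnt_twoBD (C : Finset (Fin m)) (A B D : Fin m → Prop) :
    cnt C (fun i => B i ∨ D i) = cnt C (fun i => ¬ A i ∧ B i ∧ ¬ D i) +
      cnt C (fun i => ¬ A i ∧ ¬ B i ∧ D i) + cnt C (fun i => A i ∧ B i ∧ ¬ D i) +
      cnt C (fun i => A i ∧ ¬ B i ∧ D i) + cnt C (fun i => ¬ A i ∧ B i ∧ D i) +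
      cnt C (fun i => A i ∧ B i ∧ D i) := by
  classical
  simp only [cnt_eq, ← Finset.sum_add_distrib]
  refine Finset.sum_congr rfl fun i _ => ?_
  by_cases h : i ∈ C <;> by_cases a : A i <;> by_cases b : B i <;> by_cases d : D i <;>
    simp [h, a, b, d]

lemma cnt_andAD (C : Finset (Fin m)) (A B D : Fin m → Prop) :
    cnt C (fun i => A i ∧ D i) = cnt C (fun i => A i ∧ ¬ B i ∧ D i) +
      cnt C (fun i => A i ∧ B i ∧ D i) := by
  classical
  simp only [cnt_eq, ← Finset.sum_add_distrib]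
  refine Finset.sum_congr rfl fun i _ => ?_
  by_cases h : i ∈ C <;> by_cases a : A i <;> by_cases b : B i <;> by_cases d : D i <;>
    simp [h, a, b, d]

lemma cnt_andBD (C : Finset (Fin m)) (A B D : Fin m → Prop) :
    cnt C (fun i => B i ∧ D i) = cnt C (fun i => ¬ A i ∧ B i ∧ D i) +
      cnt C (fun i => A i ∧ B i ∧ D i) := by
  classical
  simp only [cnt_eq, ← Finset.sum_add_distrib]
  refine Finset.sum_congr rfl fun i _ => ?_
  by_cases h : i ∈ C <;> by_cases a : A i <;> by_cases b : B i <;> by_cases d : D i <;>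
    simp [h, a, b, d]

/-- The bounds for the numbers of neighbours. -/
theorem bounds {E : Set (Fin m →₀ ℕ)} (hE : ∀ e ∈ E, ∑ i, e i = 2) {a b c : Fin m}
    (hab : a ≠ b) (hac : a ≠ c) (hbc : b ≠ c)
    (hC : ∀ p q, Adj E p q → p ∈ ({a, b, c} : Finset (Fin m)) ∨
      q ∈ ({a, b, c} : Finset (Fin m)))
    (hK : KP E = (1 - Polynomial.X) ^ 3 * hpoly) :
    cnt {a, b, c} (fun i => Adj E a i) + ee E a a + ee E a b + ee E a c ≤ 4 ∧
    cnt {a, b, c} (fun i => Adj E b i) + ee E b b + ee E a b + ee E b c ≤ 4 ∧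
    cnt {a, b, c} (fun i => Adj E c i) + ee E c c + ee E a c + ee E b c ≤ 4 ∧
    cnt {a, b, c} (fun i => Adj E a i ∧ Adj E b i ∧ Adj E c i) ≤ 2 ∧
    cnt {a, b, c} (fun i => Adj E a i ∧ Adj E b i) + ee E a c * ee E b c ≤ 3 ∧
    cnt {a, b, c} (fun i => Adj E a i ∧ Adj E c i) + ee E a b * ee E b c ≤ 3 ∧
    cnt {a, b, c} (fun i => Adj E b i ∧ Adj E c i) + ee E a b * ee E a c ≤ 3 := by
  have h := KP_three hE hab hac hbc hC
  rw [hK] at h
  have l12 := ee_le E a b
  have l13 := ee_le E a c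
  have l23 := ee_le E b c
  have N1 := cnt_one {a, b, c} (fun i => Adj E a i) (fun i => Adj E b i) (fun i => Adj E c i)
  have N2 := cnt_oneB {a, b, c} (fun i => Adj E a i) (fun i => Adj E b i) (fun i => Adj E c i)
  have N3 := cnt_oneD {a, b, c} (fun i => Adj E a i) (fun i => Adj E b i) (fun i => Adj E c i)
  have N12 := cnt_two {a, b, c} (fun i => Adj E a i) (fun i => Adj E b i) (fun i => Adj E c i)
  have N13 := cnt_twoAD {a, b, c} (fun i => Adj E a i) (fun i => Adj E b i) (fun i => Adj E c i)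
  have N23 := cnt_twoBD {a, b, c} (fun i => Adj E a i) (fun i => Adj E b i) (fun i => Adj E c i)
  have N123 := cnt_three {a, b, c} (fun i => Adj E a i) (fun i => Adj E b i) (fun i => Adj E c i)
  have M12 := cnt_and {a, b, c} (fun i => Adj E a i) (fun i => Adj E b i) (fun i => Adj E c i)
  have M13 := cnt_andAD {a, b, c} (fun i => Adj E a i) (fun i => Adj E b i) (fun i => Adj E c i)
  have M23 := cnt_andBD {a, b, c} (fun i => Adj E a i) (fun i => Adj E b i) (fun i => Adj E c i)
  rw [N1, N2, N3, N12, N13, N23, N123] at h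
  rw [N1, N2, N3, M12, M13, M23]
  clear N1 N2 N3 N12 N13 N23 N123 M12 M13 M23
  generalize cnt {a, b, c} (fun i => Adj E a i ∧ ¬ Adj E b i ∧ ¬ Adj E c i) = n1 at *
  generalize cnt {a, b, c} (fun i => ¬ Adj E a i ∧ Adj E b i ∧ ¬ Adj E c i) = n2 at *
  generalize cnt {a, b, c} (fun i => ¬ Adj E a i ∧ ¬ Adj E b i ∧ Adj E c i) = n3 at *
  generalize cnt {a, b, c} (fun i => Adj E a i ∧ Adj E b i ∧ ¬ Adj E c i) = n12 at *
  generalize cnt {a, b, c} (fun i => Adj E a i ∧ ¬ Adj E b i ∧ Adj E c i) = n13 at *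
  generalize cnt {a, b, c} (fun i => ¬ Adj E a i ∧ Adj E b i ∧ Adj E c i) = n23 at *
  generalize cnt {a, b, c} (fun i => Adj E a i ∧ Adj E b i ∧ Adj E c i) = g at *
  generalize ee E a b = e12 at *
  generalize ee E a c = e13 at *
  generalize ee E b c = e23 at *
  generalize ee E a a = l1 at *
  generalize ee E b b = l2 at *
  generalize ee E c c = l3 at *
  -- the coefficient of `X ^ 2`
  have h1 := congrArg (fun p => Polynomial.coeff p 2) h
  simp only [coeff_two_K, Polynomial.coeff_add, coeff_two_three, coeff_two_term, one_ne_zero,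
    if_false, if_true] at h1
  have t2 : ∀ (k : ℕ) (P : Prop) [Decidable P], (if P then (Polynomial.X : Polynomial ℤ) ^ 2 *
      (1 - Polynomial.X) ^ k else 0).coeff 2 = if P then 1 else 0 := by
    intro k P _
    split_ifs
    · rw [coeff_two_term]
      norm_num
    · simp
  have t3 : ∀ (k : ℕ) (P : Prop) [Decidable P], (if P then (Polynomial.X : Polynomial ℤ) ^ 3 *
      (1 - Polynomial.X) ^ k else 0).coeff 2 = 0 := by
    intro k P _
    split_ifs
    · rw [coeff_two_term]
      norm_num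
    · simp
  rw [t2, t2, t2, t3] at h1
  have u : ∀ x : ℕ, x ≤ 1 → (if x = 0 then (1 : ℤ) else 0) = 1 - x := by
    intro x hx
    interval_cases x <;> simp
  rw [u e12 l12, u e13 l13, u e23 l23] at h1
  -- the value at `-2`
  have h2 := congrArg (Polynomial.eval (-2)) h
  rw [eval_K] at h2
  have v2 : ∀ (k : ℕ) (P : Prop) [Decidable P], (if P then (Polynomial.X : Polynomial ℤ) ^ 2 *
      (1 - Polynomial.X) ^ k else 0).eval (-2) = 4 * (if P then 3 ^ k else 0) := by
    intro k P _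
    split_ifs
    · simp only [Polynomial.eval_mul, Polynomial.eval_pow, Polynomial.eval_X,
        Polynomial.eval_sub, Polynomial.eval_one]
      norm_num
    · simp
  have v3 : ∀ (k : ℕ) (P : Prop) [Decidable P], (if P then (Polynomial.X : Polynomial ℤ) ^ 3 *
      (1 - Polynomial.X) ^ k else 0).eval (-2) = -8 * (if P then 3 ^ k else 0) := by
    intro k P _
    split_ifs
    · simp only [Polynomial.eval_mul, Polynomial.eval_pow, Polynomial.eval_X,
        Polynomial.eval_sub, Polynomial.eval_one]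
      norm_num
    · simp
  have v1 : ∀ k : ℕ, ((Polynomial.X : Polynomial ℤ) ^ 1 *
      (1 - Polynomial.X) ^ k).eval (-2) = -2 * 3 ^ k := by
    intro k
    simp only [Polynomial.eval_mul, Polynomial.eval_pow, Polynomial.eval_X,
      Polynomial.eval_sub, Polynomial.eval_one]
    norm_num
  have v0 : ((1 - Polynomial.X : Polynomial ℤ) ^ 3).eval (-2) = 27 := by
    simp only [Polynomial.eval_pow, Polynomial.eval_X, Polynomial.eval_sub, Polynomial.eval_one]
    norm_num
  rw [Polynomial.eval_add, Polynomial.eval_add, Polynomial.eval_add, Polynomial.eval_add,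
    Polynomial.eval_add, Polynomial.eval_add, Polynomial.eval_add, v0, v1, v1, v1, v2, v2, v2,
    v3] at h2
  have s1 : n1 + l1 + (n2 + l2) + (n3 + l3) + 2 * (n12 + n13 + n23) + 3 * g + e12 + e13 + e23 =
      10 := by
    push_cast at h1
    zify
    linarith
  have s2 : 27 + 4 * ((if e12 = 0 then 3 ^ (1 + (n1 + l1 + (n2 + l2) + n12 + n13 + n23 + g)) else 0) +
      (if e13 = 0 then 3 ^ (1 + (n1 + l1 + (n3 + l3) + n12 + n13 + n23 + g)) else 0) +
      (if e23 = 0 then 3 ^ (1 + (n2 + l2 + (n3 + l3) + n12 + n13 + n23 + g)) else 0)) =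
    513 + 2 * (3 ^ (2 + (n1 + l1 + n12 + n13 + g)) + 3 ^ (2 + (n2 + l2 + n12 + n23 + g)) +
      3 ^ (2 + (n3 + l3 + n13 + n23 + g))) +
      8 * (if e12 = 0 ∧ e13 = 0 ∧ e23 = 0 then
        3 ^ (n1 + l1 + (n2 + l2) + (n3 + l3) + n12 + n13 + n23 + g) else 0) := by
    have x1 : n1 + n12 + n13 + g + l1 = n1 + l1 + n12 + n13 + g := by ring
    have x2 : n2 + n12 + n23 + g + l2 = n2 + l2 + n12 + n23 + g := by ring
    have x3 : n3 + n13 + n23 + g + l3 = n3 + l3 + n13 + n23 + g := by ring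
    have x4 : n1 + n2 + n12 + n13 + n23 + g + l1 + l2 =
      n1 + l1 + (n2 + l2) + n12 + n13 + n23 + g := by ring
    have x5 : n1 + n3 + n12 + n13 + n23 + g + l1 + l3 =
      n1 + l1 + (n3 + l3) + n12 + n13 + n23 + g := by ring
    have x6 : n2 + n3 + n12 + n13 + n23 + g + l2 + l3 =
      n2 + l2 + (n3 + l3) + n12 + n13 + n23 + g := by ring
    have x7 : n1 + n2 + n3 + n12 + n13 + n23 + g + l1 + l2 + l3 =
      n1 + l1 + (n2 + l2) + (n3 + l3) + n12 + n13 + n23 + g := by ring
    rw [x1, x2, x3, x4, x5, x6, x7] at h2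
    apply Nat.cast_injective (R := ℤ)
    push_cast
    linarith
  have r := check l12 l13 l23 s1 s2
  obtain ⟨r1, r2, r3, r4, r5, r6, r7⟩ := r
  refine ⟨by omega, by omega, by omega, r4, by omega, by omega, by omega⟩

end Pool.Agent.KS6_52.KB

end
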