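import Pool.Agent.KS6_52.KB.Betti

/-!
Vanishing of `β_{5,6}` for quadratic monomial algebras.
-/

set_option autoImplicit false

noncomputable section

namespace Pool.Agent.KS6_52.KB

open MvPolynomial

variable {K : Type} [Field K] {m : ℕ}

/-- `x_p x_q` is one of the monomials of `E`. -/
def Adj (E : Set (Fin m →₀ ℕ)) (p q : Fin m) : Prop :=
  Finsupp.single p 1 + Finsupp.single q 1 ∈ E

lemma Adj.symm {E : Set (Fin m →₀ ℕ)} {p q : Fin m} (h : Adj E p q) : Adj E q p := by
  unfold Adj at *
  rwa [add_comm]

/-- The ideal generated by the monomials of `E`. -/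
def mon (K : Type) [Field K] (E : Set (Fin m →₀ ℕ)) : Ideal (MvPolynomial (Fin m) K) :=
  Ideal.span ((fun e => MvPolynomial.monomial e (1 : K)) '' E)

lemma pair_eq_iff {l k p q : Fin m} : (Finsupp.single l 1 + Finsupp.single k 1 : Fin m →₀ ℕ) =
    Finsupp.single p 1 + Finsupp.single q 1 ↔ (l = p ∧ k = q) ∨ (l = q ∧ k = p) := by
  rw [Finsupp.single_add_single_eq_single_add_single one_ne_zero one_ne_zero]
  simp

/-- A quadratic polynomial in the ideal has no coefficient at a monomial outside of `E`. -/
lemma coeff_eq_zero {E : Set (Fin m →₀ ℕ)} (hE : ∀ e ∈ E, ∑ i, e i = 2)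
    {P : MvPolynomial (Fin m) K} (hP : P ∈ mon K E) {p q : Fin m} (h : ¬ Adj E p q) :
    P.coeff (Finsupp.single p 1 + Finsupp.single q 1) = 0 := by
  by_contra hne
  have h1 := (MvPolynomial.mem_ideal_span_monomial_image.1 hP) _
    (MvPolynomial.mem_support_iff.2 hne)
  obtain ⟨e, he, hle⟩ := h1
  apply h
  have h2 := hE e he
  have h3 : ∑ i, (Finsupp.single p 1 + Finsupp.single q 1 : Fin m →₀ ℕ) i = 2 := by
    have h5 : ∀ r : Fin m, ∑ i, (Finsupp.single r 1 : Fin m →₀ ℕ) i = 1 := by
      intro r
      simp [Finsupp.single_apply]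
    simp only [Finsupp.add_apply, Finset.sum_add_distrib, h5]
  have h4 : e = Finsupp.single p 1 + Finsupp.single q 1 := by
    ext i
    have h5 : ∀ i ∈ Finset.univ, e i ≤ (Finsupp.single p 1 + Finsupp.single q 1 : Fin m →₀ ℕ) i :=
      fun i _ => hle i
    exact (Finset.sum_eq_sum_iff_of_le h5).1 (by rw [h2, h3]) i (Finset.mem_univ i)
  unfold Adj
  rw [← h4]
  exact he

/-- The sign. -/
def eps (K : Type) [Field K] (k : Fin m) (T : Finset (Fin m)) : K :=
  (-1) ^ (T.filter (· < k)).card

lemma eps_sq (k : Fin m) (T : Finset (Fin m)) : eps K k T * eps K k T = 1 := by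
  rw [eps, ← pow_add, ← two_mul, pow_mul]
  simp

lemma sum_pair (s : Finset (Fin m)) (p q : Fin m) (g : Fin m → Fin m → K) :
    ∑ l ∈ s, ∑ k, (if l = p ∧ k = q then g l k else 0) = if p ∈ s then g p q else 0 := by
  have h1 : ∀ l ∈ s, ∑ k, (if l = p ∧ k = q then g l k else 0) = if l = p then g l q else 0 := by
    intro l _
    by_cases h : l = p
    · rw [if_pos h, Finset.sum_eq_single q]
      · rw [if_pos ⟨h, rfl⟩]
      · intro k _ hk
        rw [if_neg (fun h' => hk h'.2)]
      · intro h'
        exact absurd (Finset.mem_univ q) h'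
    · rw [if_neg h]
      refine Finset.sum_eq_zero fun k _ => ?_
      rw [if_neg (fun h' => h h'.1)]
  rw [Finset.sum_congr rfl h1]
  rw [Finset.sum_ite_eq']

/-- The coefficients of a cycle. -/
lemma cycle_coeff {E : Set (Fin m →₀ ℕ)} (hE : ∀ e ∈ E, ∑ i, e i = 2)
    {c : Finset (Fin m) → Fin m → K}
    (hc : kdiff (mon K E) (fun T => Ideal.Quotient.mk (mon K E) (∑ k, C (c T k) * X k)) = 0)
    (U : Finset (Fin m)) {p q : Fin m} (h : ¬ Adj E p q) :
    (p ≠ q → (if p ∈ Uᶜ then eps K p U * c (insert p U) q else 0) +
      (if q ∈ Uᶜ then eps K q U * c (insert q U) p else 0) = 0) ∧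
    (p = q → (if p ∈ Uᶜ then eps K p U * c (insert p U) q else 0) = 0) := by
  have h1 := congrFun hc U
  rw [kdiff_apply] at h1
  have h2 : (∑ l ∈ Uᶜ, C (eps K l U) * (X l * ∑ k, C (c (insert l U) k) * X k) :
      MvPolynomial (Fin m) K) ∈ mon K E := by
    rw [← Ideal.Quotient.eq_zero_iff_mem, map_sum]
    rw [Pi.zero_apply] at h1
    rw [← h1]
    refine Finset.sum_congr rfl fun l _ => ?_
    rw [map_mul, map_mul]
    congr 1
    rw [eps, map_pow, map_pow, map_neg, map_neg, map_one, map_one]
  have h3 := coeff_eq_zero hE h2 h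
  rw [MvPolynomial.coeff_sum] at h3
  have h4 : ∀ l ∈ Uᶜ, MvPolynomial.coeff (Finsupp.single p 1 + Finsupp.single q 1)
      (C (eps K l U) * (X l * ∑ k, C (c (insert l U) k) * X k) : MvPolynomial (Fin m) K) =
      ∑ k, (if (l = p ∧ k = q) ∨ (l = q ∧ k = p) then eps K l U * c (insert l U) k else 0) := by
    intro l _
    rw [MvPolynomial.coeff_C_mul, Finset.mul_sum, MvPolynomial.coeff_sum, Finset.mul_sum]
    refine Finset.sum_congr rfl fun k _ => ?_
    have e : (X l * (C (c (insert l U) k) * X k) : MvPolynomial (Fin m) K) =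
        C (c (insert l U) k) * MvPolynomial.monomial
          (Finsupp.single l 1 + Finsupp.single k 1) 1 := by
      have e0 : MvPolynomial.monomial (Finsupp.single l 1 + Finsupp.single k 1) (1 : K) =
          X l * X k := by
        rw [X, X, MvPolynomial.monomial_mul, one_mul]
      rw [e0]
      ring
    rw [e, MvPolynomial.coeff_C_mul, MvPolynomial.coeff_monomial]
    by_cases hh : (l = p ∧ k = q) ∨ (l = q ∧ k = p)
    · rw [if_pos hh, if_pos (pair_eq_iff.2 hh)]
      ring
    · rw [if_neg hh, if_neg (fun h' => hh (pair_eq_iff.1 h'))]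
      ring
  rw [Finset.sum_congr rfl h4] at h3
  constructor
  · intro hpq
    rw [← sum_pair Uᶜ p q (fun l k => eps K l U * c (insert l U) k),
      ← sum_pair Uᶜ q p (fun l k => eps K l U * c (insert l U) k), ← Finset.sum_add_distrib]
    refine Eq.trans ?_ h3
    refine Finset.sum_congr rfl fun l _ => ?_
    rw [← Finset.sum_add_distrib]
    refine Finset.sum_congr rfl fun k _ => ?_
    by_cases a1 : l = p ∧ k = q
    · have a2 : ¬ (l = q ∧ k = p) := by
        rintro ⟨rfl, rfl⟩
        exact hpq a1.1.symm
      rw [if_pos a1, if_neg a2, if_pos (Or.inl a1), add_zero]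
    · rw [if_neg a1, zero_add]
      by_cases a2 : l = q ∧ k = p
      · rw [if_pos a2, if_pos (Or.inr a2)]
      · rw [if_neg a2, if_neg (by
          rintro (h | h)
          · exact a1 h
          · exact a2 h)]
  · intro hpq
    subst hpq
    rw [← sum_pair Uᶜ p p (fun l k => eps K l U * c (insert l U) k)]
    refine Eq.trans ?_ h3
    refine Finset.sum_congr rfl fun l _ => Finset.sum_congr rfl fun k _ => ?_
    by_cases a1 : l = p ∧ k = p
    · rw [if_pos a1, if_pos (Or.inl a1)]
    · rw [if_neg a1, if_neg (by
        rintro (h | h)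
        · exact a1 h
        · exact a1 h)]

/-- If no variable meets five of the variables (counting itself) and no six variables are split by
the monomials of `E`, then the Betti number `β_{5,6}` vanishes. -/
theorem betti_five_six {E : Set (Fin m →₀ ℕ)} (hE : ∀ e ∈ E, ∑ i, e i = 2)
    (H1 : ∀ T : Finset (Fin m), T.card = 5 → ∀ q ∈ T, ∃ p ∈ T, ¬ Adj E p q)
    (H2 : ∀ W : Finset (Fin m), W.card = 6 → ∀ f : Fin m → K,
      (∀ p ∈ W, ∀ q ∈ W, p ≠ q → ¬ Adj E p q → f p = f q) → ∀ p ∈ W, ∀ q ∈ W, f p = f q) :
    betti (mon K E) 5 6 = 0 := by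
  classical
  rw [betti, if_pos (by norm_num)]
  have hle : cycles (mon K E) 5 1 ≤ bdries (mon K E) 5 1 := by
    intro ω hω
    obtain ⟨hω1, hω2⟩ := hω
    have hex : ∀ T : Finset (Fin m), ∃ c : Fin m → K,
        ω T = Ideal.Quotient.mk (mon K E) (∑ k, C (c k) * X k) ∧ (T.card ≠ 5 → c = 0) := by
      intro T
      by_cases hT : T.card = 5
      · obtain ⟨c, hc⟩ := exists_lin (hω1 T).1
        exact ⟨c, hc, fun h => absurd hT h⟩
      · refine ⟨0, ?_, fun _ => rfl⟩
        rw [(hω1 T).2 hT]
        simp
    choose c hc hc0 using hex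
    have hωc : ω = fun T => Ideal.Quotient.mk (mon K E) (∑ k, C (c T k) * X k) := funext hc
    have hk : kdiff (mon K E) (fun T => Ideal.Quotient.mk (mon K E) (∑ k, C (c T k) * X k)) = 0 := by
      rw [← hωc]
      exact hω2
    have F := fun (U : Finset (Fin m)) (p q : Fin m) (h : ¬ Adj E p q) =>
      cycle_coeff hE hk U h
    -- the coefficients inside of `T` vanish
    have hin : ∀ T : Finset (Fin m), ∀ q ∈ T, c T q = 0 := by
      intro T q hq
      by_cases hT : T.card = 5
      · obtain ⟨p, hp, hpq⟩ := H1 T hT q hq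
        have hU : p ∈ (T.erase p)ᶜ := by simp
        have hins : insert p (T.erase p) = T := Finset.insert_erase hp
        by_cases hne : p = q
        · have h1 := (F (T.erase p) p q hpq).2 hne
          rw [if_pos hU, hins] at h1
          have h2 := eps_sq (K := K) p (T.erase p)
          calc c T q = (eps K p (T.erase p) * eps K p (T.erase p)) * c T q := by rw [h2, one_mul]
            _ = eps K p (T.erase p) * (eps K p (T.erase p) * c T q) := by ring
            _ = 0 := by rw [h1, mul_zero]
        · have h1 := (F (T.erase p) p q hpq).1 hne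
          have hq' : q ∉ (T.erase p)ᶜ := by
            rw [Finset.mem_compl, not_not, Finset.mem_erase]
            exact ⟨fun h => hne h.symm, hq⟩
          rw [if_pos hU, if_neg hq', add_zero, hins] at h1
          have h2 := eps_sq (K := K) p (T.erase p)
          calc c T q = (eps K p (T.erase p) * eps K p (T.erase p)) * c T q := by rw [h2, one_mul]
            _ = eps K p (T.erase p) * (eps K p (T.erase p) * c T q) := by ring
            _ = 0 := by rw [h1, mul_zero]
      · rw [hc0 T hT]
        rfl
    -- the coefficients outside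
    have hout : ∀ W : Finset (Fin m), W.card = 6 → ∀ p ∈ W, ∀ q ∈ W,
        eps K p (W.erase p) * c (W.erase p) p = eps K q (W.erase q) * c (W.erase q) q := by
      intro W hW
      refine H2 W hW (fun p => eps K p (W.erase p) * c (W.erase p) p) ?_
      intro p hp q hq hpq hadj
      set U := (W.erase p).erase q with hUdef
      have hpU : p ∉ U := by simp [hUdef]
      have hqU : q ∉ U := by simp [hUdef]
      have i1 : insert q U = W.erase p :=
        Finset.insert_erase (Finset.mem_erase.2 ⟨hpq.symm, hq⟩)
      have i2 : insert p U = W.erase q := by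
        rw [hUdef, Finset.erase_right_comm]
        exact Finset.insert_erase (Finset.mem_erase.2 ⟨hpq, hp⟩)
      have h1 := (F U p q hadj).1 hpq
      rw [if_pos (Finset.mem_compl.2 hpU), if_pos (Finset.mem_compl.2 hqU), i1, i2] at h1
      have h2 := sign_rule (K := K) U hpU hqU hpq
      rw [i1, i2] at h2
      change eps K p U * eps K q (W.erase q) = -(eps K q U * eps K p (W.erase p)) at h2
      have s1 := eps_sq (K := K) p U
      have s2 := eps_sq (K := K) q U
      have s3 := eps_sq (K := K) p (W.erase p)
      have s4 := eps_sq (K := K) q (W.erase q)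
      change eps K p (W.erase p) * c (W.erase p) p = eps K q (W.erase q) * c (W.erase q) q
      -- `eps p U * c (W - q) q = - eps q U * c (W - p) p`
      have h3 : eps K p U * c (W.erase q) q = -(eps K q U * c (W.erase p) p) := by
        linear_combination h1
      have h4 : eps K q (W.erase q) * (eps K p U * (eps K p U * c (W.erase q) q)) =
          eps K q (W.erase q) * (eps K p U * (-(eps K q U * c (W.erase p) p))) := by
        rw [h3]
      calc eps K p (W.erase p) * c (W.erase p) p
          = (eps K q U * eps K q U) * (eps K p (W.erase p) * c (W.erase p) p) := by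
            rw [s2, one_mul]
        _ = -(eps K q U * (-(eps K q U * eps K p (W.erase p))) * c (W.erase p) p) := by ring
        _ = -(eps K q U * (eps K p U * eps K q (W.erase q)) * c (W.erase p) p) := by rw [h2]
        _ = eps K q (W.erase q) * (eps K p U * (-(eps K q U * c (W.erase p) p))) := by ring
        _ = eps K q (W.erase q) * (eps K p U * (eps K p U * c (W.erase q) q)) := by rw [h4]
        _ = (eps K p U * eps K p U) * (eps K q (W.erase q) * c (W.erase q) q) := by ring
        _ = eps K q (W.erase q) * c (W.erase q) q := by rw [s1, one_mul]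
    -- the chain
    have hb : ∀ W : Finset (Fin m), ∃ b : K, (W.card ≠ 6 → b = 0) ∧
        ∀ q ∈ W, W.card = 6 → b = eps K q (W.erase q) * c (W.erase q) q := by
      intro W
      by_cases hW : W.card = 6
      · obtain ⟨q0, hq0⟩ : W.Nonempty := by
          rw [← Finset.card_pos]
          omega
        exact ⟨eps K q0 (W.erase q0) * c (W.erase q0) q0, fun h => absurd hW h,
          fun q hq _ => hout W hW q0 hq0 q hq⟩
      · exact ⟨0, fun _ => rfl, fun _ _ h => absurd h hW⟩
    choose b hb0 hb1 using hb
    refine ⟨fun W => Ideal.Quotient.mk (mon K E) (C (b W)), ?_, ?_⟩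
    · intro W
      refine ⟨⟨C (b W), isHomogeneous_C _ _, rfl⟩, fun h => ?_⟩
      change Ideal.Quotient.mk (mon K E) (C (b W)) = 0
      rw [hb0 W h]
      simp
    · funext T
      rw [kdiff_apply, hωc]
      change _ = Ideal.Quotient.mk (mon K E) (∑ k, C (c T k) * X k)
      by_cases hT : T.card = 5
      · rw [← Finset.sum_add_sum_compl T, Finset.sum_eq_zero (s := T), zero_add, map_sum]
        · refine Finset.sum_congr rfl fun k hk => ?_
          have hkT : k ∉ T := Finset.mem_compl.1 hk
          have hcard : (insert k T).card = 6 := by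
            rw [Finset.card_insert_of_notMem hkT, hT]
          have h1 := hb1 (insert k T) k (Finset.mem_insert_self _ _) hcard
          rw [Finset.erase_insert hkT] at h1
          have h2 := eps_sq (K := K) k T
          have h3 : c T k = eps K k T * b (insert k T) := by
            rw [h1, ← mul_assoc, h2, one_mul]
          have h4 : ((-1) ^ (T.filter (· < k)).card : MvPolynomial (Fin m) K ⧸ mon K E) =
              Ideal.Quotient.mk (mon K E) (C (eps K k T)) := by
            rw [eps, map_pow, map_pow, map_neg, map_neg, map_one, map_one]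
          rw [h3, h4, ← map_mul, ← map_mul]
          congr 1
          rw [C_mul]
          ring
        · intro k hk
          rw [hin T k hk]
          simp
      · rw [hc0 T hT]
        have : ∑ k ∈ Tᶜ, (-1) ^ (T.filter (· < k)).card *
            (Ideal.Quotient.mk (mon K E) (X k) *
              Ideal.Quotient.mk (mon K E) (C (b (insert k T)))) = 0 := by
          refine Finset.sum_eq_zero fun k hk => ?_
          have hkT : k ∉ T := Finset.mem_compl.1 hk
          rw [hb0 (insert k T) (by
            rw [Finset.card_insert_of_notMem hkT]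
            omega)]
          simp
        rw [this]
        simp
  have htop : Submodule.comap (cycles (mon K E) 5 (6 - 5)).subtype (bdries (mon K E) 5 (6 - 5)) =
      ⊤ := by
    rw [eq_top_iff]
    intro x _
    exact hle x.2
  rw [htop]
  exact Module.finrank_zero_of_subsingleton

end Pool.Agent.KS6_52.KB

end
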